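import Pool.Agent.L7h66.UA.Asm
import Pool.Agent.L7h71.UN.All
import Pool.Agent.L7h23.UA.Tow
import Pool.Agent.L7h23.UA.Ppp
import Pool.Agent.L7h51.UA.Fra
import Pool.Agent.L7h51.UA.Frb
import Pool.Agent.L7h42.UA.Frc
import Pool.Agent.L7h50.UA.Typ
import Pool.Agent.L7h50.UA.Ceq
import Pool.Agent.L7h50.UA.Glu
import Pool.Agent.L7h97.UA.Cna
import Pool.Agent.L7h53.UA.Bll
import Pool.Agent.L7h53.UA.Cnt
import Pool.Agent.L7h45.UA.Bld
import Pool.Agent.L7h29.UA.Cth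
import Pool.Agent.L7h29.UA.Sys
import Pool.Agent.L7h78.UA.Den
import Pool.Agent.L7h78.UA.Kon
import Pool.Agent.L7h78.UA.Sub
import Pool.Agent.L7h77.UA.Enu
import Pool.Agent.L7h77.UA.Rep
import Pool.Agent.L7h77.UA.Fou
import Pool.Agent.L7h18.UA.Inv

set_option autoImplicit false

/-!
# Project UA: all parts together (relational structures)
-/

namespace Pool.Agent.L7h66.UA

open Pool.Agent.L7h71.UN (nam)

theorem tow : S_TOW := L7h23.UA.s_TOW (L7h51.UA.s_FRA L7h51.UN.s_INT)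
  (L7h51.UA.s_FRB (L7h51.UA.s_FRA L7h51.UN.s_INT)) L7h42.UA.s_FRC

theorem typ : S_TYP := L7h50.UA.s_TYP

theorem ceq : S_CEQ := L7h50.UA.s_CEQ typ

theorem cna : S_CNA := L7h97.UA.s_CNA typ ceq L7h50.UA.s_GLU

theorem cnt : S_CNT := L7h53.UA.s_CNT cna ceq

theorem den : S_DEN := L7h78.UA.s_DEN typ ceq

theorem sys : S_SYS := L7h29.UA.s_SYS (L7h45.UA.s_BLD L7h53.UA.s_BLL)

theorem inv : S_INV := L7h18.UA.s_INV typ ceq

theorem ppp : S_PPP := L7h23.UA.s_PPP ceq den sys inv L7h78.UA.s_SUB L7h77.UA.s_ENU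

theorem all : S_ALL := s_ALL nam tow L7h78.UA.s_KON ceq cnt ppp (L7h29.UA.s_CTH L7h77.UA.s_REP)

theorem fou : S_FOU := L7h77.UA.s_FOU all

end Pool.Agent.L7h66.UA

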