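import Pool.Agent.L7h66.UA.Stm

set_option autoImplicit false

/-!
# Project UA: assembly
-/

namespace Pool.Agent.L7h66.UA

open Set Function
open Pool.Agent.L7h71.UN (Closed Good Sw IsSwap Dom act CellR Cl St Cellular S_INT S_NAM lift)
open Pool.Agent.H533R2.VO (RS RIso Dich)

theorem mem_autR {a : ℕ → ℕ} {x : RS a} {n : ℕ} {g : Equiv.Perm ℕ} :
    g ∈ AutR x n ↔ LIso n x x g := Iff.rfl

theorem closed_autR {a : ℕ → ℕ} (x : RS a) (n : ℕ) : Closed (AutR x n) := by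
  classical
  intro g hg i hi v
  obtain ⟨h, h1, h2⟩ := hg (Finset.univ.image v)
  have h3 : (g : ℕ → ℕ) ∘ v = h ∘ v := by
    funext j
    exact (h2 _ (Finset.mem_image_of_mem _ (Finset.mem_univ j))).symm
  rw [h3]
  exact h1 i hi v

theorem act_comp {d m : ℕ} {sz : Fin m → ℕ} (σ τ : Fin m → Equiv.Perm ℕ) (z : Dom d m sz) :
    act σ (act τ z) = act (fun i => σ i * τ i) z := by
  rcases z with a | w <;> rfl

theorem act_one {d m : ℕ} {sz : Fin m → ℕ} (z : Dom d m sz) :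
    act (fun _ => (1 : Equiv.Perm ℕ)) z = z := by
  rcases z with a | w <;> rfl

/-- the permutation of the domain -/
def actE {d m : ℕ} {sz : Fin m → ℕ} (σ : Fin m → Equiv.Perm ℕ) : Equiv.Perm (Dom d m sz) where
  toFun := act σ
  invFun := act fun i => (σ i)⁻¹
  left_inv z := by
    rw [act_comp]
    have : (fun i => (σ i)⁻¹ * σ i) = fun _ => (1 : Equiv.Perm ℕ) := by
      funext i
      simp
    rw [this, act_one]
  right_inv z := by
    rw [act_comp]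
    have : (fun i => σ i * (σ i)⁻¹) = fun _ => (1 : Equiv.Perm ℕ) := by
      funext i
      simp
    rw [this, act_one]

theorem cellG_autR {a : ℕ → ℕ} {x : RS a} {n : ℕ} (h : CellR {i | i < n} x) :
    CellG (AutR x n) := by
  obtain ⟨d, m, sz, e, he⟩ := h
  refine ⟨d, m, sz, e, fun σ => ⟨(e.trans (actE σ)).trans e.symm, fun i hi v => ?_, fun v => rfl⟩⟩
  exact he σ i hi v

/-- the structure of a model -/
def Sty {a : ℕ → ℕ} (y : RS a) (ψ : ℕ → (ℕ ≃ ℕ)) : RS a := fun i v => y i (ψ (i + 1) ∘ v)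

theorem s_ALL (hNAM : S_NAM) (hTOW : S_TOW) (hKON : S_KON) (hCEQ : S_CEQ) (hCNT : S_CNT)
    (hPPP : S_PPP) (hCTH : S_CTH) : S_ALL := by
  intro a B hB hiso hloc
  by_cases hP : ∃ g : (ℕ → Bool) → RS a, Continuous g ∧ (∀ c, g c ∈ B) ∧
      ∀ c d : ℕ → Bool, RIso (g c) (g d) → c = d
  · exact Or.inr hP
  left
  have hcell : ∀ x ∈ B, ∀ n, CellR {i | i < n} x := by
    intro x hx n
    by_contra hn
    obtain ⟨F, hF⟩ := hloc x hx
    obtain ⟨g, g1, g2, g3⟩ := lift hNAM F x n hn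
    exact hP ⟨g, g1, fun c => hF (g2 c), g3⟩
  obtain ⟨C, hC1, hC2, hC3⟩ := (hCTH a B hB hcell).resolve_left hP
  -- for one theory
  have key : ∀ y ∈ C, ∃ 𝒞 : Set (RS a), 𝒞.Countable ∧ ∀ x : RS a, (∀ n, ∃ σ, LIso n x y σ) →
      ∃ z ∈ 𝒞, RIso z x := by
    intro y hy
    obtain ⟨T, hT⟩ := hTOW (fun n => AutR y n) (fun n g hg i hi v => hg i (Nat.lt_succ_of_lt hi) v)
      (fun n => closed_autR y n) fun n => cellG_autR (hcell y (hC2 hy) n)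
    have hT' : ∀ n, T.G n = AutR y n := fun n => congrFun hT n
    let s : Setoid (PM T) :=
      { r := fun p q => CE T p.ψ p.w q.ψ q.w
        iseqv := ⟨fun p => ⟨p.w, cp_self p.hw, Ty.refl _ _⟩,
          fun {p q} h => (hCEQ T ℕ ℕ ℕ p.ψ q.ψ q.ψ p.coh q.coh q.coh p.w q.w q.w p.hw q.hw h).1,
          fun {p q r} h h' =>
            (hCEQ T ℕ ℕ ℕ p.ψ q.ψ r.ψ p.coh q.coh r.coh p.w q.w r.w p.hw q.hw h).2 r.hw h'⟩ }
    let Q : Set (Quotient s) := (fun p => (⟦p⟧ : Quotient s)) '' {p | FreeP T p}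
    have hQ : Q.Finite := by
      by_contra hinf
      have hinf' : Q.Infinite := hinf
      let f := hinf'.natEmbedding
      have h1 : ∀ k, ∃ p : PM T, FreeP T p ∧ (⟦p⟧ : Quotient s) = (f k).1 := fun k => (f k).2
      choose γ hγ1 hγ2 using h1
      obtain ⟨F, hF⟩ := hloc y (hC2 hy)
      obtain ⟨g, g1, g2, g3⟩ := hPPP a y T hT' F γ hγ1 (fun k l h => by
        have h2 : (⟦γ k⟧ : Quotient s) = ⟦γ l⟧ := Quotient.sound h
        rw [hγ2, hγ2] at h2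
        exact f.injective (Subtype.ext h2))
      refine hP ⟨g, g1, fun c => ?_, g3⟩
      obtain ⟨z, hz, hzc⟩ := g2 c
      exact hiso z (g c) hzc (hF hz)
    obtain ⟨𝒟, h𝒟1, h𝒟2, h𝒟3⟩ := hCNT T (Quotient.out '' Q) (hQ.image _) (fun q hq =>
      ⟨Quotient.out (⟦q⟧ : Quotient s), ⟨⟦q⟧, ⟨q, hq, rfl⟩, rfl⟩,
        Quotient.exact (Quotient.out_eq (⟦q⟧ : Quotient s))⟩)
    refine ⟨Sty y '' 𝒟, h𝒟1.image _, fun x hx => ?_⟩
    choose θ hθ using hx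
    have hθ' : ∀ n i, i < n → ∀ v : Fin (a i) → ℕ, y i (θ n ∘ v) = x i v := fun n i hi v => hθ n i hi v
    obtain ⟨ψ, hψ1, hψ2⟩ := hKON T ℕ (fun n => θ n) (fun n => by
      refine ⟨θ n * (θ (n + 1))⁻¹, ?_, fun w => ?_⟩
      · rw [hT']
        intro i hi v
        have h1 : (⇑(θ n * (θ (n + 1))⁻¹) ∘ v) = θ n ∘ (⇑(θ (n + 1))⁻¹ ∘ v) := rfl
        rw [h1, hθ' n i hi, ← hθ' (n + 1) i (Nat.lt_succ_of_lt hi)]
        congr 1
        funext j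
        simp
      · simp)
    obtain ⟨ψ', hψ', f, hf⟩ := h𝒟3 ψ hψ1
    refine ⟨Sty y ψ', ⟨ψ', hψ', rfl⟩, f, fun i v => ?_⟩
    show x i (f ∘ v) = y i (ψ' (i + 1) ∘ v)
    obtain ⟨g, hg, h1⟩ := hψ2 (i + 1)
    obtain ⟨g', hg', h2⟩ := hf (i + 1)
    rw [hT'] at hg hg'
    rw [← hθ' (i + 1) i (Nat.lt_succ_self i), ← hg i (Nat.lt_succ_self i),
      ← hg' i (Nat.lt_succ_self i) (ψ' (i + 1) ∘ v)]
    congr 1
    funext j
    show g (θ (i + 1) (f (v j))) = g' (ψ' (i + 1) (v j))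
    rw [← h1, h2]
  choose! 𝒞 h𝒞1 h𝒞2 using key
  have hU : (⋃ y ∈ C, 𝒞 y).Countable := hC1.biUnion h𝒞1
  by_cases hne : (⋃ y ∈ C, 𝒞 y).Nonempty
  · obtain ⟨f, hf⟩ := hU.exists_eq_range hne
    refine ⟨f, fun x hx => ?_⟩
    obtain ⟨y, hy, hxy⟩ := hC3 x hx
    obtain ⟨z, hz, hzx⟩ := h𝒞2 y hy x hxy
    have hz' : z ∈ ⋃ y ∈ C, 𝒞 y := mem_biUnion hy hz
    rw [hf] at hz'
    obtain ⟨n, rfl⟩ := hz'
    exact ⟨n, hzx⟩
  · refine ⟨fun _ _ _ => true, fun x hx => ?_⟩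
    obtain ⟨y, hy, hxy⟩ := hC3 x hx
    obtain ⟨z, hz, hzx⟩ := h𝒞2 y hy x hxy
    exact absurd ⟨z, mem_biUnion hy hz⟩ hne

end Pool.Agent.L7h66.UA
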