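import Pool.Agent.L7h66.UA.StmX
import Pool.Agent.H566W.Ana

set_option autoImplicit false

/-!
# Project UA, part PFX: the perfect-set engine
-/

namespace Pool.Agent.L7h66.UA

open Set Filter Function Topology MeasureTheory

section

variable {a : ℕ → ℕ} {K : ℕ → Type}

theorem pfx_lc_apply (g : (ℕ → Bool) → XS a K ℕ) (hg : ∀ i x, IsLocallyConstant fun c => g c i x)
    (i : ℕ) (x : Fin (a i) → ℕ) :
    IsLocallyConstant fun p : ((ℕ → Bool) × (ℕ → Bool)) × ((ℕ → ℕ) × (ℕ → ℕ)) =>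
      g p.1.2 i (p.2.1 ∘ x) := by
  rw [IsLocallyConstant.iff_eventually_eq]
  intro p0
  have h1 : ∀ᶠ p : ((ℕ → Bool) × (ℕ → Bool)) × ((ℕ → ℕ) × (ℕ → ℕ)) in 𝓝 p0,
      ∀ j, p.2.1 (x j) = p0.2.1 (x j) := by
    rw [eventually_all]
    intro j
    have hc : Continuous fun p : ((ℕ → Bool) × (ℕ → Bool)) × ((ℕ → ℕ) × (ℕ → ℕ)) =>
        p.2.1 (x j) := (continuous_apply (x j)).comp (continuous_fst.comp continuous_snd)
    exact hc.continuousAt.eventually (isOpen_discrete {p0.2.1 (x j)} |>.mem_nhds rfl)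
  have h2 : ∀ᶠ p : ((ℕ → Bool) × (ℕ → Bool)) × ((ℕ → ℕ) × (ℕ → ℕ)) in 𝓝 p0,
      g p.1.2 i (p0.2.1 ∘ x) = g p0.1.2 i (p0.2.1 ∘ x) := by
    have h3 := (IsLocallyConstant.iff_eventually_eq _).1 (hg i (p0.2.1 ∘ x)) p0.1.2
    have hc : Continuous fun p : ((ℕ → Bool) × (ℕ → Bool)) × ((ℕ → ℕ) × (ℕ → ℕ)) => p.1.2 :=
      continuous_snd.comp continuous_fst
    exact hc.continuousAt.eventually h3
  filter_upwards [h1, h2] with p hp1 hp2
  have : p.2.1 ∘ x = p0.2.1 ∘ x := funext hp1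
  rw [this, hp2]

theorem pfx_isClosed {X Z : Type} [TopologicalSpace X] {f g : X → Z}
    (hf : IsLocallyConstant f) (hg : IsLocallyConstant g) : IsClosed {x | f x = g x} := by
  let _ : TopologicalSpace Z := ⊥
  have : DiscreteTopology Z := ⟨rfl⟩
  exact isClosed_eq hf.continuous hg.continuous

theorem pfx_analytic (g : (ℕ → Bool) → XS a K ℕ)
    (hg : ∀ i x, IsLocallyConstant fun c => g c i x) :
    AnalyticSet {p : (ℕ → Bool) × (ℕ → Bool) | XIso (g p.1) (g p.2)} := by
  let C : Set (((ℕ → Bool) × (ℕ → Bool)) × ((ℕ → ℕ) × (ℕ → ℕ))) :=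
    {p | (∀ n, p.2.1 (p.2.2 n) = n) ∧ (∀ n, p.2.2 (p.2.1 n) = n) ∧
      ∀ i (x : Fin (a i) → ℕ), g p.1.2 i (p.2.1 ∘ x) = g p.1.1 i x}
  have hev : Continuous fun q : (ℕ → ℕ) × ℕ => q.1 q.2 := by
    rw [continuous_iff_continuousAt]
    rintro ⟨e, n⟩
    have h1 : ∀ᶠ q : (ℕ → ℕ) × ℕ in 𝓝 (e, n), q.2 = n :=
      (continuous_snd (X := ℕ → ℕ) (Y := ℕ)).continuousAt.eventually
        ((isOpen_discrete ({n} : Set ℕ)).mem_nhds (mem_singleton n))
    have h2 : ContinuousAt (fun q : (ℕ → ℕ) × ℕ => q.1 n) (e, n) :=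
      ((continuous_apply n).comp continuous_fst).continuousAt
    refine h2.congr ?_
    filter_upwards [h1] with q hq
    rw [hq]
  have hC : IsClosed C := by
    have h1 : IsClosed {p : ((ℕ → Bool) × (ℕ → Bool)) × ((ℕ → ℕ) × (ℕ → ℕ)) |
        ∀ n, p.2.1 (p.2.2 n) = n} := by
      simp only [ofPred_forall]
      refine isClosed_iInter fun n => isClosed_eq ?_ continuous_const
      exact hev.comp ((continuous_fst.comp continuous_snd).prodMk
        ((continuous_apply n).comp (continuous_snd.comp continuous_snd)))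
    have h2 : IsClosed {p : ((ℕ → Bool) × (ℕ → Bool)) × ((ℕ → ℕ) × (ℕ → ℕ)) |
        ∀ n, p.2.2 (p.2.1 n) = n} := by
      simp only [ofPred_forall]
      refine isClosed_iInter fun n => isClosed_eq ?_ continuous_const
      exact hev.comp ((continuous_snd.comp continuous_snd).prodMk
        ((continuous_apply n).comp (continuous_fst.comp continuous_snd)))
    have h3 : IsClosed {p : ((ℕ → Bool) × (ℕ → Bool)) × ((ℕ → ℕ) × (ℕ → ℕ)) |
        ∀ i (x : Fin (a i) → ℕ), g p.1.2 i (p.2.1 ∘ x) = g p.1.1 i x} := by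
      simp only [ofPred_forall]
      exact isClosed_iInter fun i => isClosed_iInter fun x => pfx_isClosed (pfx_lc_apply g hg i x)
        ((hg i x).comp_continuous (continuous_fst.comp continuous_fst))
    exact h1.inter (h2.inter h3)
  have hP : PolishSpace (((ℕ → Bool) × (ℕ → Bool)) × (ℕ → ℕ) × (ℕ → ℕ)) := {}
  have h4 : AnalyticSet (Prod.fst '' C) := hC.analyticSet.image_of_continuous continuous_fst
  have h5 : {p : (ℕ → Bool) × (ℕ → Bool) | XIso (g p.1) (g p.2)} = Prod.fst '' C := by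
    ext ⟨c, d⟩
    constructor
    · rintro ⟨e, he⟩
      exact ⟨((c, d), (e, e.symm)), ⟨fun n => e.apply_symm_apply n,
        fun n => e.symm_apply_apply n, he⟩, rfl⟩
    · rintro ⟨⟨⟨c', d'⟩, ⟨e, e'⟩⟩, ⟨h1, h2, h3⟩, h⟩
      simp only [Prod.mk.injEq] at h
      obtain ⟨rfl, rfl⟩ := h
      exact ⟨⟨e, e', h2, h1⟩, h3⟩
  rw [h5]
  exact h4

end

theorem s_PFX : S_PFX := by
  intro a K k g s hg hinj
  obtain ⟨h, hh, hh2⟩ := Pool.Agent.H566W.perfect_independent
    (fun c d => XIso (g c) (g d)) (pfx_analytic g hg) (fun c => by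
      classical
      let e : (ℕ → Bool) → Equiv.Perm ℕ := fun d =>
        if h : XIso (g c) (g d) then h.choose else 1
      have he : ∀ d, XIso (g c) (g d) → ∀ i (x : Fin (a i) → ℕ), g d i (e d ∘ x) = g c i x := by
        intro d hd i x
        simp only [e, dif_pos hd]
        exact hd.choose_spec i x
      refine Set.countable_of_injective_of_countable_image (f := fun d (i : Fin k) =>
        (e d).symm (s d i)) ?_ (Set.to_countable _)
      intro d hd d' hd' hdd
      refine hinj d d' ((e d).symm.trans (e d')) (fun i => ?_) (fun i x => ?_)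
      · have := congrFun hdd i
        simp only at this
        rw [Equiv.trans_apply, this, Equiv.apply_symm_apply]
      · have h1 : (⇑((e d).symm.trans (e d')) ∘ x) = e d' ∘ ((e d).symm ∘ x) := rfl
        rw [h1, he d' hd', ← he d hd i ((e d).symm ∘ x)]
        congr 1
        funext j
        simp)
  refine ⟨h, hh, fun c d hcd => ?_⟩
  by_contra hne
  exact hh2 c d hne hcd

end Pool.Agent.L7h66.UA
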