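import Pool.Agent.L7h66.UA.All
import Pool.Agent.L7h66.UA.AsmX
import Pool.Agent.L7h66.UA.Pfx
import Pool.Agent.L7h51.UA.Nx1
import Pool.Agent.L7h77.UA.Nx2
import Pool.Agent.L7h77.UA.Rex
import Pool.Agent.L7h18.UA.Ctx
import Pool.Agent.L7h18.UA.Sig
import Pool.Agent.L7h87.UA.Lrc
import Pool.Agent.L7h23.UA.Ppx

set_option autoImplicit false

/-!
# Project UA: all parts together (structures with values in Polish spaces)
-/

namespace Pool.Agent.L7h66.UA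

open Pool.Agent.L7h71.UN (nam)

theorem ppx : S_PPX := L7h23.UA.X.s_PPX ceq den sys inv L7h78.UA.s_SUB L7h77.UA.s_ENU

theorem ctx : S_CTX := L7h18.UA.X.s_CTX L7h77.UA.s_REX

theorem nx1 : S_NX1 := L7h51.UA.s_NX1 L7h73.UN.s_FQ s_PFX L7h77.UA.s_ENU

theorem nx2 : S_NX2 := L7h77.UA.s_NX2 nam

theorem alx : S_ALX := s_ALX nx1 nx2 tow L7h78.UA.s_KON ceq cnt ppx ctx

theorem lrc : S_LRC := L7h87.UA.s_LRC alx

theorem sig : S_SIG := L7h18.UA.Sig.s_SIG lrc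

end Pool.Agent.L7h66.UA

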