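import Pool.Agent.L7h66.UA.StmY
import Pool.Agent.L7h66.UA.AsmX

set_option autoImplicit false

/-!
# Project UA: assembly for analytic classes
-/

namespace Pool.Agent.L7h66.UA

open Set Function
open Pool.Agent.L7h71.UN (Closed Dom act)

theorem s_ALA (hNX1 : S_NX1) (hNX2 : S_NX2) (hTOW : S_TOW) (hKON : S_KON) (hCEQ : S_CEQ)
    (hCNT : S_CNT) (hPPX : S_PPX) (hCTA : S_CTA) : S_ALA := by
  intro a K _ _ _ _ B hB hiso hloc
  by_cases hP : ∃ g : (ℕ → Bool) → XS a K ℕ, Continuous g ∧ (∀ c, g c ∈ B) ∧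
      ∀ c d : ℕ → Bool, XIso (g c) (g d) → c = d
  · exact Or.inr hP
  left
  have hmany : ∀ M ∈ B, ∀ F : Finset ℕ, (∀ N, XLoc F M N → N ∈ B) → ¬ XMany F M := by
    rintro M hM F hF ⟨g, g1, g2, g3⟩
    refine hP ⟨g, continuous_pi fun i => continuous_pi fun x => (g1 i x).continuous, fun c => ?_, g3⟩
    obtain ⟨N, h1, h2⟩ := g2 c
    exact hiso N (hF N h1) (g c) h2
  have hcell : ∀ x ∈ B, ∀ n, CellX n x := by
    intro x hx n
    by_contra hn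
    obtain ⟨F, hF⟩ := hloc x hx
    refine hmany x hx F hF ?_
    by_cases h1 : ∃ i, (range (x i)).Infinite
    · exact hNX1 a K x F h1
    · push Not at h1
      exact hNX2 a K x F n h1 hn
  obtain ⟨C, hC1, hC2, hC3⟩ := (hCTA a K B hB hcell).resolve_left hP
  -- for one theory
  have key : ∀ y ∈ C, ∃ 𝒞 : Set (XS a K ℕ), 𝒞.Countable ∧
      ∀ x : XS a K ℕ, (∀ n, ∃ σ, LIsoX n x y σ) → ∃ z ∈ 𝒞, XIso z x := by
    intro y hy
    obtain ⟨T, hT⟩ := hTOW (fun n => AutX y n) (fun n g hg i hi v => hg i (Nat.lt_succ_of_lt hi) v)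
      (fun n => closed_autX y n) fun n => cellG_autX (hcell y (hC2 hy) n)
    have hT' : ∀ n, T.G n = AutX y n := fun n => congrFun hT n
    let s : Setoid (PM T) :=
      { r := fun p q => CE T p.ψ p.w q.ψ q.w
        iseqv := ⟨fun p => ⟨p.w, cp_self p.hw, Ty.refl _ _⟩,
          fun {p q} h => (hCEQ T ℕ ℕ ℕ p.ψ q.ψ q.ψ p.coh q.coh q.coh p.w q.w q.w p.hw q.hw h).1,
          fun {p q r} h h' =>
            (hCEQ T ℕ ℕ ℕ p.ψ q.ψ r.ψ p.coh q.coh r.coh p.w q.w r.w p.hw q.hw h).2 r.hw h'⟩ }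
    let Q : Set (Quotient s) := (fun p => (⟦p⟧ : Quotient s)) '' {p | FreeP T p}
    have hQ : Q.Finite := by
      by_contra hinf
      have hinf' : Q.Infinite := hinf
      let f := hinf'.natEmbedding
      have h1 : ∀ k, ∃ p : PM T, FreeP T p ∧ (⟦p⟧ : Quotient s) = (f k).1 := fun k => (f k).2
      choose γ hγ1 hγ2 using h1
      obtain ⟨F, hF⟩ := hloc y (hC2 hy)
      refine hmany y (hC2 hy) F hF (hPPX a K y T hT' F γ hγ1 fun k l h => ?_)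
      have h2 : (⟦γ k⟧ : Quotient s) = ⟦γ l⟧ := Quotient.sound h
      rw [hγ2, hγ2] at h2
      exact f.injective (Subtype.ext h2)
    obtain ⟨𝒟, h𝒟1, h𝒟2, h𝒟3⟩ := hCNT T (Quotient.out '' Q) (hQ.image _) (fun q hq =>
      ⟨Quotient.out (⟦q⟧ : Quotient s), ⟨⟦q⟧, ⟨q, hq, rfl⟩, rfl⟩,
        Quotient.exact (Quotient.out_eq (⟦q⟧ : Quotient s))⟩)
    refine ⟨StyX y '' 𝒟, h𝒟1.image _, fun x hx => ?_⟩
    choose θ hθ using hx
    have hθ' : ∀ n i, i < n → ∀ v : Fin (a i) → ℕ, y i (θ n ∘ v) = x i v := fun n i hi v => hθ n i hi v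
    obtain ⟨ψ, hψ1, hψ2⟩ := hKON T ℕ (fun n => θ n) (fun n => by
      refine ⟨θ n * (θ (n + 1))⁻¹, ?_, fun w => ?_⟩
      · rw [hT']
        intro i hi v
        have h1 : (⇑(θ n * (θ (n + 1))⁻¹) ∘ v) = θ n ∘ (⇑(θ (n + 1))⁻¹ ∘ v) := rfl
        rw [h1, hθ' n i hi, ← hθ' (n + 1) i (Nat.lt_succ_of_lt hi)]
        congr 1
        funext j
        simp
      · simp)
    obtain ⟨ψ', hψ', f, hf⟩ := h𝒟3 ψ hψ1
    refine ⟨StyX y ψ', ⟨ψ', hψ', rfl⟩, f, fun i v => ?_⟩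
    show x i (f ∘ v) = y i (ψ' (i + 1) ∘ v)
    obtain ⟨g, hg, h1⟩ := hψ2 (i + 1)
    obtain ⟨g', hg', h2⟩ := hf (i + 1)
    rw [hT'] at hg hg'
    rw [← hθ' (i + 1) i (Nat.lt_succ_self i), ← hg i (Nat.lt_succ_self i),
      ← hg' i (Nat.lt_succ_self i) (ψ' (i + 1) ∘ v)]
    congr 1
    funext j
    show g (θ (i + 1) (f (v j))) = g' (ψ' (i + 1) (v j))
    rw [← h1, h2]
  choose! 𝒞 h𝒞1 h𝒞2 using key
  refine ⟨⋃ y ∈ C, 𝒞 y, hC1.biUnion h𝒞1, fun x hx => ?_⟩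
  obtain ⟨y, hy, hxy⟩ := hC3 x hx
  obtain ⟨z, hz, hzx⟩ := h𝒞2 y hy x hxy
  exact ⟨z, mem_biUnion hy hz, hzx⟩

end Pool.Agent.L7h66.UA
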