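import Pool.Agent.L7h66.UA.StmY
import Pool.Agent.L7h18.UA.Ctx

set_option autoImplicit false

/-!
# Project UA, part CTA: the number of the theories in an analytic class
-/

namespace Pool.Agent.L7h66.UA

open Set Function MeasureTheory
open Pool.Agent.L7h18.UA.X (Om Yset meas_Yset liso_Y liso_trans liso_symm liso_of_xiso)

theorem s_CTA (hR : S_REX) : S_CTA := by
  intro a K _ _ _ _ B hB hcell
  rw [AnalyticSet] at hB
  rcases hB with rfl | ⟨f, hf, rfl⟩
  · exact Or.inr ⟨∅, countable_empty, empty_subset _, fun x hx => absurd hx (notMem_empty x)⟩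
  have hfm : Measurable f := hf.measurable
  -- first step
  by_cases hQ : ∀ i, (⋃ x : Fin (a i) → ℕ, Set.range fun z : ℕ → ℕ => f z i x).Countable
  swap
  · push Not at hQ
    obtain ⟨i, hi⟩ := hQ
    left
    obtain ⟨h, h1, h2⟩ := Pool.Agent.H565R2.FO2.perfect_of_uncountable
      (Y := ℕ → ℕ) (X := XS a K ℕ) (Z := K i) (ι := Fin (a i) → ℕ) f hfm
      (fun x z => f z i x)
      (fun x => (measurable_pi_apply x).comp ((measurable_pi_apply i).comp hfm))
      (fun z z' => XIso (f z) (f z')) (by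
        rintro z z' ⟨e, he⟩ x
        exact ⟨e ∘ x, (he i x).symm⟩) hi
    refine ⟨fun c => f (h c), h1, fun c => ⟨h c, rfl⟩, fun c d hcd => ?_⟩
    by_contra hne
    exact h2 c d hne hcd
  choose R0 hR0 hR1 using hR a K (fun i => ⋃ x : Fin (a i) → ℕ, Set.range fun z : ℕ → ℕ => f z i x) hQ
  have hR1 : ∀ n z, ∃ y ∈ R0 n, ∃ σ, LIsoX n y (f z) σ := fun n z =>
    hR1 n (f z) (hcell _ ⟨z, rfl⟩ n) fun i x => mem_iUnion.2 ⟨x, ⟨z, rfl⟩⟩
  have hne : ∀ n, (R0 n).Nonempty := by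
    intro n
    obtain ⟨y, hy, -⟩ := hR1 n fun _ => 0
    exact ⟨y, hy⟩
  choose R hRr using fun n => (hR0 n).exists_eq_range (hne n)
  set M : ℕ → ℕ → Prop := fun n k => ∀ j, j < k → ¬ ∃ σ, LIsoX n (R n j) (R n k) σ with hM
  let Y : Set ((ℕ → ℕ) × Om a K) := {q | q.2 ∈ Yset (Set.univ : Set (XS a K ℕ)) R M ∧ f q.1 = q.2.1}
  have hsurj : ∀ z, ∃ q ∈ Y, q.1 = z := by
    classical
    intro z
    have h1 : ∀ n, ∃ k, ∃ σ, LIsoX n (R n k) (f z) σ := by
      intro n
      obtain ⟨y, hy, σ, hσ⟩ := hR1 n z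
      rw [hRr n] at hy
      obtain ⟨k, rfl⟩ := hy
      exact ⟨k, σ, hσ⟩
    have h2 : ∀ n, ∃ k, (∃ σ, LIsoX n (R n k) (f z) σ) ∧ M n k := by
      intro n
      refine ⟨Nat.find (h1 n), Nat.find_spec (h1 n), fun j hj => ?_⟩
      rintro ⟨σ, hσ⟩
      obtain ⟨τ, hτ⟩ := Nat.find_spec (h1 n)
      exact Nat.find_min (h1 n) hj ⟨τ * σ, liso_trans hσ hτ⟩
    choose k h3 h4 using h2
    choose σ h5 using h3
    refine ⟨(z, (f z, fun n => σ n, fun n => (σ n).symm, k)), ⟨⟨mem_univ _, ?_, ?_, ?_, ?_⟩, rfl⟩, rfl⟩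
    · intro n m j hj
      show σ n j = m
      have hj' : (σ n).symm m = j := hj
      rw [← hj', Equiv.apply_symm_apply]
    · intro n m j hj
      show (σ n).symm j = m
      have hj' : σ n m = j := hj
      rw [← hj', Equiv.symm_apply_apply]
    · intro n i hi v u j hu hj
      have hj' : k n = j := hj
      have hu' : ∀ t, σ n (v t) = u t := hu
      have h6 := h5 n i hi v
      subst hj'
      have : u = ⇑(σ n) ∘ v := funext fun t => (hu' t).symm
      rw [this]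
      exact h6
    · intro n j hj
      have hj' : k n = j := hj
      rw [← hj']
      exact h4 n
  have hYm : MeasurableSet Y := by
    refine ((meas_Yset MeasurableSet.univ R M).preimage measurable_snd).inter ?_
    exact measurableSet_eq_fun (hfm.comp measurable_fst) (measurable_fst.comp measurable_snd)
  by_cases hc : (⋃ _ : Unit, Set.range fun y : Y => y.1.2.2.2.2).Countable
  · right
    have hc' : (Set.range fun y : Y => y.1.2.2.2.2).Countable := by
      rwa [iUnion_const] at hc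
    have hch : ∀ k : (Set.range fun y : Y => y.1.2.2.2.2), ∃ y : Y, y.1.2.2.2.2 = k.1 :=
      fun k => k.2
    choose ch hch' using hch
    have : Countable (Set.range fun y : Y => y.1.2.2.2.2) := hc'.to_subtype
    refine ⟨Set.range fun k => f (ch k).1.1, countable_range _, ?_, ?_⟩
    · rintro _ ⟨k, rfl⟩
      exact ⟨_, rfl⟩
    · rintro _ ⟨z, rfl⟩
      obtain ⟨q, hq, rfl⟩ := hsurj z
      set k : (Set.range fun y : Y => y.1.2.2.2.2) := ⟨q.2.2.2.2, ⟨⟨q, hq⟩, rfl⟩⟩ with hk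
      refine ⟨f (ch k).1.1, ⟨k, rfl⟩, fun n => ?_⟩
      obtain ⟨σ, hσ⟩ := liso_Y hq.1 n
      obtain ⟨τ, hτ⟩ := liso_Y (ch k).2.1 n
      have e : (ch k).1.2.2.2.2 = q.2.2.2.2 := hch' k
      rw [e, ← (ch k).2.2] at hτ
      rw [← hq.2] at hσ
      exact ⟨τ * σ⁻¹, liso_trans (liso_symm hσ) hτ⟩
  · left
    have hstd : StandardBorelSpace Y := hYm.standardBorel
    have hE : ∀ y y' : Y, XIso (f y.1.1) (f y'.1.1) → ∀ i : Unit, ∃ j : Unit,
        (fun (_ : Unit) (y : Y) => y.1.2.2.2.2) i y = (fun (_ : Unit) (y : Y) => y.1.2.2.2.2) j y' := by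
      intro y y' hyy' _
      refine ⟨(), ?_⟩
      funext n
      obtain ⟨σ, hσ⟩ := liso_Y y.2.1 n
      obtain ⟨τ, hτ⟩ := liso_Y y'.2.1 n
      obtain ⟨ρ, hρ⟩ := liso_of_xiso (n := n) hyy'
      rw [y.2.2, y'.2.2] at hρ
      have k1 : LIsoX n (R n (y.1.2.2.2.2 n)) (R n (y'.1.2.2.2.2 n)) (τ⁻¹ * (ρ * σ)) :=
        liso_trans (liso_trans hσ hρ) (liso_symm hτ)
      rcases lt_trichotomy (y.1.2.2.2.2 n) (y'.1.2.2.2.2 n) with h3 | h3 | h3
      · exact absurd ⟨_, k1⟩ (y'.2.1.2.2.2.2 n _ rfl _ h3)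
      · exact h3
      · exact absurd ⟨_, liso_symm k1⟩ (y.2.1.2.2.2.2 n _ rfl _ h3)
    obtain ⟨h, h1, h2⟩ := Pool.Agent.H565R2.FO2.perfect_of_uncountable
      (Y := Y) (X := XS a K ℕ) (Z := ℕ → ℕ) (ι := Unit)
      (fun y => f y.1.1) (hfm.comp (measurable_fst.comp measurable_subtype_coe))
      (fun _ y => y.1.2.2.2.2)
      (fun _ => (measurable_snd.comp (measurable_snd.comp (measurable_snd.comp
        measurable_snd))).comp measurable_subtype_coe)
      (fun y y' => XIso (f y.1.1) (f y'.1.1)) hE hc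
    refine ⟨fun c => f (h c).1.1, h1, fun c => ⟨_, rfl⟩, fun c d hcd => ?_⟩
    by_contra hne
    exact h2 c d hne hcd

end Pool.Agent.L7h66.UA
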