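import Pool.Agent.L7h66.UA.StmY
import Pool.Agent.L7h87.UA.Lrc

set_option autoImplicit false

/-!
# Project UA, parts LRA and AGE: analytic classes closed under younger structures over finite sets
-/

namespace Pool.Agent.L7h66.UA

open Set Function MeasureTheory
open Pool.Agent.L7h87.UA (KK ar enc dec Coh' dec_enc enc_iso dec_iso coh_iso coh_loc loc_yo)

theorem analytic_inter {X : Type} [TopologicalSpace X] [T2Space X] {s t : Set X}
    (hs : AnalyticSet s) (ht : AnalyticSet t) : AnalyticSet (s ∩ t) := by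
  rw [Set.inter_eq_iInter]
  exact AnalyticSet.iInter fun b => by cases b <;> assumption

theorem s_LRA (hA : S_ALA) : S_LRA := by
  intro a K _ _ _ _ B hB hiso hyo
  have hdc : Continuous (dec : XS ar (KK a K) ℕ → XS a K ℕ) := by
    refine continuous_pi fun i => continuous_pi fun x => ?_
    show Continuous fun N : XS ar (KK a K) ℕ => N (a i) x i id
    fun_prop
  have hec : Continuous (enc : XS a K ℕ → XS ar (KK a K) ℕ) := by
    refine continuous_pi fun r => continuous_pi fun u => continuous_pi fun i => continuous_pi fun t => ?_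
    show Continuous fun M : XS a K ℕ => M i (u ∘ t)
    fun_prop
  have hB' : AnalyticSet {N : XS ar (KK a K) ℕ | Coh' N ∧ dec N ∈ B} := by
    refine analytic_inter ?_ ?_
    · exact (isClosed_eq (hec.comp hdc) continuous_id).analyticSet
    · exact hB.preimage hdc
  rcases hA ar (KK a K) {N | Coh' N ∧ dec N ∈ B} hB' (fun M hM N h => ⟨coh_iso hM.1 h, hiso _ hM.2 _ (dec_iso h)⟩)
    (fun M hM => by
      obtain ⟨F, hF⟩ := hyo _ hM.2
      exact ⟨F, fun N hN => ⟨coh_loc hM.1 hN, hF _ (loc_yo hM.1 (coh_loc hM.1 hN) hN)⟩⟩) with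
    ⟨C, hC, hC2⟩ | ⟨g, g1, g2, g3⟩
  · left
    refine ⟨dec '' C, hC.image _, fun M hM => ?_⟩
    obtain ⟨N, hN, hNM⟩ := hC2 (enc M) ⟨congrArg enc (dec_enc M), by rw [dec_enc]; exact hM⟩
    exact ⟨dec N, ⟨N, hN, rfl⟩, dec_iso hNM⟩
  · right
    refine ⟨dec ∘ g, hdc.comp g1, fun c => (g2 c).2, fun c d h => g3 c d ?_⟩
    have h1 := enc_iso h
    have h2 : enc (dec (g c)) = g c := (g2 c).1
    have h3 : enc (dec (g d)) = g d := (g2 d).1
    simp only [comp_apply] at h1
    rwa [h2, h3] at h1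

section age

variable {a : ℕ → ℕ} {K : ℕ → Type}

/-- with partial embeddings given on all of `ℕ` but taken from a countable set -/
theorem xYo_iff {M N : XS a K ℕ} : XYo ∅ M N ↔
    ∀ X : Finset ℕ, ∃ e : (X → ℕ), Injective e ∧
      ∀ i (x : Fin (a i) → X), M i (e ∘ x) = N i (fun j => (x j : ℕ)) := by
  classical
  constructor
  · intro h X
    obtain ⟨e, h1, -, h3⟩ := h X
    refine ⟨fun p => e p, fun p q hpq => Subtype.ext (h1 p.2 q.2 hpq), fun i x => ?_⟩
    exact h3 i (fun j => (x j : ℕ)) fun j => (x j).2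
  · intro h X
    obtain ⟨e, h1, h2⟩ := h X
    refine ⟨fun p => if hp : p ∈ X then e ⟨p, hp⟩ else 0, ?_, fun p hp => absurd hp (by simp),
      fun i x hx => ?_⟩
    · intro p hp q hq hpq
      have hp' : p ∈ X := hp
      have hq' : q ∈ X := hq
      simp only [dif_pos hp', dif_pos hq'] at hpq
      exact congrArg Subtype.val (h1 hpq)
    · rw [← h2 i fun j => ⟨x j, hx j⟩]
      congr 1
      funext j
      simp [dif_pos (hx j)]

theorem xYo_trans {M N P : XS a K ℕ} (h : XYo ∅ M N) (h' : XYo ∅ N P) : XYo ∅ M P := by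
  classical
  intro X
  obtain ⟨e, h1, -, h3⟩ := h' X
  obtain ⟨e', h1', -, h3'⟩ := h (X.image e)
  refine ⟨e' ∘ e, ?_, fun p hp => absurd hp (by simp), fun i x hx => ?_⟩
  · intro p hp q hq hpq
    exact h1 hp hq (h1' (Finset.mem_image_of_mem _ hp) (Finset.mem_image_of_mem _ hq) hpq)
  · rw [comp_assoc, h3' i (e ∘ x) fun j => Finset.mem_image_of_mem _ (hx j), h3 i x hx]

theorem xYo_of_iso {M N : XS a K ℕ} (h : XIso M N) : XYo ∅ M N := by
  obtain ⟨σ, hσ⟩ := h
  refine fun X => ⟨σ.symm, σ.symm.injective.injOn, fun p hp => absurd hp (by simp), fun i x _ => ?_⟩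
  rw [← hσ]
  congr 1
  funext j
  simp

end age

theorem s_AGE (hL : S_LRA) : S_AGE := by
  intro a K _ _ _ _ 𝒦 h𝒦
  refine hL a K _ ?_ ?_ ?_
  · -- analytic
    have h1 : MeasurableSet {p : XS a K ℕ × XS a K ℕ | XYo ∅ p.1 p.2} := by
      have h2 : {p : XS a K ℕ × XS a K ℕ | XYo ∅ p.1 p.2} =
          ⋂ X : Finset ℕ, ⋃ e : {e : X → ℕ // Injective e}, ⋂ i, ⋂ x : Fin (a i) → X,
            {p | p.1 i (e.1 ∘ x) = p.2 i (fun j => (x j : ℕ))} := by
        ext p
        simp only [mem_iInter, mem_iUnion]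
        rw [mem_ofPred_eq, xYo_iff]
        constructor
        · intro h X
          obtain ⟨e, he, h⟩ := h X
          exact ⟨⟨e, he⟩, h⟩
        · intro h X
          obtain ⟨⟨e, he⟩, h⟩ := h X
          exact ⟨e, he, h⟩
      rw [h2]
      refine MeasurableSet.iInter fun X => MeasurableSet.iUnion fun e => MeasurableSet.iInter fun i =>
        MeasurableSet.iInter fun x => ?_
      exact measurableSet_eq_fun
        ((measurable_pi_apply _).comp ((measurable_pi_apply i).comp measurable_fst))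
        ((measurable_pi_apply _).comp ((measurable_pi_apply i).comp measurable_snd))
    have h3 : AnalyticSet ({p : XS a K ℕ × XS a K ℕ | XYo ∅ p.1 p.2} ∩ Prod.fst ⁻¹' 𝒦) :=
      analytic_inter h1.analyticSet (h𝒦.preimage continuous_fst)
    have h4 := h3.image_of_continuous (continuous_snd (X := XS a K ℕ) (Y := XS a K ℕ))
    have h5 : {N : XS a K ℕ | ∃ M ∈ 𝒦, XYo ∅ M N} =
        Prod.snd '' ({p : XS a K ℕ × XS a K ℕ | XYo ∅ p.1 p.2} ∩ Prod.fst ⁻¹' 𝒦) := by
      ext N
      constructor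
      · rintro ⟨M, hM, h⟩
        exact ⟨(M, N), ⟨h, hM⟩, rfl⟩
      · rintro ⟨⟨M, N'⟩, ⟨h, hM⟩, rfl⟩
        exact ⟨M, hM, h⟩
    rw [h5]
    exact h4
  · rintro N ⟨M, hM, h⟩ P hP
    exact ⟨M, hM, xYo_trans h (xYo_of_iso hP)⟩
  · rintro N ⟨M, hM, h⟩
    exact ⟨∅, fun P hP => ⟨M, hM, xYo_trans h hP⟩⟩

end Pool.Agent.L7h66.UA
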