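import Pool.Agent.L7h66.UA.AllX
import Pool.Agent.L7h66.UA.AsmY
import Pool.Agent.L7h66.UA.Cta
import Pool.Agent.L7h66.UA.Lra

set_option autoImplicit false

/-!
# Project UA: all parts together (analytic classes)
-/

namespace Pool.Agent.L7h66.UA

theorem ala : S_ALA := s_ALA nx1 nx2 tow L7h78.UA.s_KON ceq cnt ppx (s_CTA L7h77.UA.s_REX)

theorem lra : S_LRA := s_LRA ala

theorem age : S_AGE := s_AGE lra

end Pool.Agent.L7h66.UA

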