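import Pool.Agent.L7h71.UN.Stm

set_option autoImplicit false

/-!
# Project UA: towers of permutation groups and coherent models

Universal theories in languages of unbounded arity.
-/

namespace Pool.Agent.L7h66.UA

open Set Function

/-- A decreasing sequence of groups `G n` of permutations of `ℕ` with its canonical data:
finite sets `D n` (the points which lie in no good tuple), partitions of the complements of the `D n`
in finite atoms `B n v`, and normal subgroups `S n` (the closure of the group of the elements of `G n`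
with finite support which fix the points of `D n`). -/
structure Tower where
  G : ℕ → Subgroup (Equiv.Perm ℕ)
  S : ℕ → Subgroup (Equiv.Perm ℕ)
  D : ℕ → Set ℕ
  B : ℕ → ℕ → Set ℕ
  G_anti : ∀ n, G (n + 1) ≤ G n
  S_anti : ∀ n, S (n + 1) ≤ S n
  S_le : ∀ n, S n ≤ G n
  S_conj : ∀ n, ∀ g ∈ G n, ∀ s ∈ S n, g * s * g⁻¹ ∈ S n
  D_fin : ∀ n, (D n).Finite
  D_mono : ∀ n, D n ⊆ D (n + 1)
  D_G : ∀ n, ∀ g ∈ G n, ∀ v, g v ∈ D n ↔ v ∈ D n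
  S_D : ∀ n, ∀ s ∈ S n, ∀ v ∈ D n, s v = v
  B_fin : ∀ n v, (B n v).Finite
  B_self : ∀ n v, v ∉ D n → v ∈ B n v
  B_not : ∀ n v, v ∉ D n → ∀ w ∈ B n v, w ∉ D n
  B_eq : ∀ n v, v ∉ D n → ∀ w ∈ B n v, B n w = B n v
  B_mono : ∀ n v, v ∉ D (n + 1) → B n v ⊆ B (n + 1) v
  B_D : ∀ n v, v ∉ D n → v ∈ D (n + 1) → B n v ⊆ D (n + 1)
  B_G : ∀ n, ∀ g ∈ G n, ∀ v, v ∉ D n → ∀ w, g w ∈ B n (g v) ↔ w ∈ B n v
  S_ext : ∀ n (Z : Finset ℕ) (f : ℕ → ℕ), (∀ v ∈ Z, v ∈ D n → f v = v) →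
    (∀ v ∈ Z, v ∉ D n → ∃ s ∈ S n, ∀ u ∈ B n v, f u = s u) →
    (∀ v ∈ Z, ∀ w ∈ Z, v ∉ D n → w ∉ D n → f w ∈ B n (f v) → w ∈ B n v) →
    ∃ s ∈ S n, ∀ v ∈ Z, s v = f v ∧ (v ∉ D n → ∀ u ∈ B n v, s u = f u)
  S_loc : ∀ n (h : Equiv.Perm ℕ), (∀ v ∈ D n, h v = v) →
    (∀ v, v ∉ D n → ∃ s ∈ S n, ∀ u ∈ B n v, h u = s u) → h ∈ S n
  S_orb : ∀ n, ∃ R : Finset ℕ, ∀ v, ∃ s ∈ S n, s v ∈ R
  S_inf : ∀ n v, v ∉ D n → {u | ∃ s ∈ S n, s v = u}.Infinite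

namespace Tower

variable (T : Tower)

theorem D_le {m n : ℕ} (h : m ≤ n) : T.D m ⊆ T.D n := by
  induction n, h using Nat.le_induction with
  | base => exact subset_rfl
  | succ n _ ih => exact ih.trans (T.D_mono n)

theorem S_anti_le {m n : ℕ} (h : m ≤ n) : T.S n ≤ T.S m := by
  induction n, h using Nat.le_induction with
  | base => exact le_rfl
  | succ n _ ih => exact (T.S_anti n).trans ih

theorem G_anti_le {m n : ℕ} (h : m ≤ n) : T.G n ≤ T.G m := by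
  induction n, h using Nat.le_induction with
  | base => exact le_rfl
  | succ n _ ih => exact (T.G_anti n).trans ih

theorem B_le {m n : ℕ} (h : m ≤ n) {v : ℕ} (hv : v ∉ T.D n) : T.B m v ⊆ T.B n v := by
  induction n, h using Nat.le_induction with
  | base => exact subset_rfl
  | succ n _ ih => exact (ih fun h => hv (T.D_mono n h)).trans (T.B_mono n v hv)

/-- an atom which meets `D n`, `n ≥ m`, is contained in `D n` -/
theorem B_D_le {m n : ℕ} (h : m ≤ n) {v : ℕ} (hv : v ∉ T.D m) (hv' : v ∈ T.D n) :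
    T.B m v ⊆ T.D n := by
  induction n, h using Nat.le_induction with
  | base => exact absurd hv' hv
  | succ n hmn ih =>
    by_cases h1 : v ∈ T.D n
    · exact (ih h1).trans (T.D_mono n)
    · exact (T.B_le hmn h1).trans (T.B_D n v h1 hv')

theorem D_S {n : ℕ} {s : Equiv.Perm ℕ} (hs : s ∈ T.S n) (v : ℕ) : s v ∈ T.D n ↔ v ∈ T.D n :=
  T.D_G n s (T.S_le n hs) v

theorem B_S {n : ℕ} {s : Equiv.Perm ℕ} (hs : s ∈ T.S n) {v : ℕ} (hv : v ∉ T.D n) (w : ℕ) :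
    s w ∈ T.B n (s v) ↔ w ∈ T.B n v :=
  T.B_G n s (T.S_le n hs) v hv w

theorem B_symm {n v w : ℕ} (hv : v ∉ T.D n) (hw : w ∈ T.B n v) : v ∈ T.B n w := by
  rw [T.B_eq n v hv w hw]
  exact T.B_self n v hv

theorem S_conj' {n : ℕ} {g s : Equiv.Perm ℕ} (hg : g ∈ T.G n) (hs : s ∈ T.S n) :
    g⁻¹ * s * g ∈ T.S n := by
  have := T.S_conj n g⁻¹ ((T.G n).inv_mem hg) s hs
  rwa [inv_inv] at this

end Tower

variable (T : Tower) {W W' W'' : Type}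

/-- A coherent model on `W`: bijections with `ℕ` such that the transition from level `n + 1` to level
`n` is in `S n`. -/
def Coh (ψ : ℕ → (W ≃ ℕ)) : Prop := ∀ n, ∃ s ∈ T.S n, ∀ w, ψ n w = s (ψ (n + 1) w)

/-- The algebraic points. -/
def Din (ψ : ℕ → (W ≃ ℕ)) : Set W := {w | ∃ n, ψ n w ∈ T.D n}

/-- The component of a point (which is not algebraic). -/
def Cp (ψ : ℕ → (W ≃ ℕ)) (w : W) : Set W := {u | ∃ n, ψ n u ∈ T.B n (ψ n w)}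

/-- The points have the same type. -/
def Ty (ψ : ℕ → (W ≃ ℕ)) (w : W) (ψ' : ℕ → (W' ≃ ℕ)) (w' : W') : Prop :=
  ∀ n, ∃ s ∈ T.S n, ψ' n w' = s (ψ n w)

/-- The components are isomorphic. -/
def CE (ψ : ℕ → (W ≃ ℕ)) (w : W) (ψ' : ℕ → (W' ≃ ℕ)) (w' : W') : Prop :=
  ∃ u ∈ Cp T ψ' w', Ty T ψ w ψ' u

/-- Isomorphism of coherent models. -/
def MIso (ψ : ℕ → (W ≃ ℕ)) (ψ' : ℕ → (W' ≃ ℕ)) : Prop :=
  ∃ f : W ≃ W', ∀ n, ∃ g ∈ T.G n, ∀ w, ψ' n (f w) = g (ψ n w)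

/-- Pointed models. -/
structure PM where
  ψ : ℕ → (ℕ ≃ ℕ)
  coh : Coh T ψ
  w : ℕ
  hw : w ∉ Din T ψ

/-- Some model has only finitely many components isomorphic to that of the point. -/
def FreeP (p : PM T) : Prop :=
  ∃ ψ : ℕ → (ℕ ≃ ℕ), Coh T ψ ∧
    {K : Set ℕ | ∃ w, w ∉ Din T ψ ∧ K = Cp T ψ w ∧ CE T p.ψ p.w ψ w}.Finite

variable {T}

section coh

variable {ψ : ℕ → (W ≃ ℕ)} (hψ : Coh T ψ)
include hψ

theorem Coh.le {m n : ℕ} (h : m ≤ n) : ∃ s ∈ T.S m, ∀ w, ψ m w = s (ψ n w) := by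
  induction n, h using Nat.le_induction with
  | base => exact ⟨1, (T.S m).one_mem, fun w => rfl⟩
  | succ n hmn ih =>
    obtain ⟨s, hs, h1⟩ := ih
    obtain ⟨t, ht, h2⟩ := hψ n
    refine ⟨s * t, (T.S m).mul_mem hs (T.S_anti_le hmn ht), fun w => ?_⟩
    rw [h1, h2, Equiv.Perm.mul_apply]

/-- the transition between any two levels is in `S m` if `m` is below both -/
theorem Coh.trans_mem {m n k : ℕ} (h : m ≤ n) (h' : m ≤ k) :
    ∃ s ∈ T.S m, ∀ w, ψ n w = s (ψ k w) := by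
  obtain ⟨s, hs, h1⟩ := hψ.le h
  obtain ⟨t, ht, h2⟩ := hψ.le h'
  refine ⟨s⁻¹ * t, (T.S m).mul_mem ((T.S m).inv_mem hs) ht, fun w => ?_⟩
  rw [Equiv.Perm.mul_apply, ← h2, h1]
  exact (s.symm_apply_apply _).symm

/-- algebraic points have a fixed image -/
theorem Coh.din_eq {m n : ℕ} (h : m ≤ n) {w : W} (hw : ψ m w ∈ T.D m) : ψ n w = ψ m w := by
  obtain ⟨s, hs, h1⟩ := hψ.le h
  have h2 : ψ n w ∈ T.D m := by
    rw [h1, T.D_S hs] at hw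
    exact hw
  rw [h1, T.S_D m s hs _ h2]

theorem Coh.din_up {m n : ℕ} (h : m ≤ n) {w : W} (hw : ψ m w ∈ T.D m) : ψ n w ∈ T.D n := by
  rw [hψ.din_eq h hw]
  exact T.D_le h hw

/-- the relation of being in the same atom increases -/
theorem Coh.at_up {m n : ℕ} (h : m ≤ n) {w u : W} (hw : ψ n w ∉ T.D n)
    (hu : ψ m u ∈ T.B m (ψ m w)) : ψ n u ∈ T.B n (ψ n w) := by
  obtain ⟨s, hs, h1⟩ := hψ.le h
  refine T.B_le h hw ?_
  have h2 : ψ n w ∉ T.D m := fun h2 => hw (T.D_le h h2)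
  rw [h1, h1] at hu
  exact (T.B_S hs h2 _).1 hu

omit hψ in
theorem not_of {n : ℕ} {w : W} (hw : w ∉ Din T ψ) : ψ n w ∉ T.D n := fun h => hw ⟨n, h⟩

omit hψ in
theorem cp_self {w : W} (hw : w ∉ Din T ψ) : w ∈ Cp T ψ w :=
  ⟨0, T.B_self 0 _ fun h => hw ⟨0, h⟩⟩

theorem Coh.cp_not {w u : W} (hw : w ∉ Din T ψ) (hu : u ∈ Cp T ψ w) : u ∉ Din T ψ := by
  rintro ⟨m, hm⟩
  obtain ⟨n, hn⟩ := hu
  have h1 := hψ.at_up (le_max_right m n) (fun h => hw ⟨_, h⟩) hn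
  exact T.B_not _ _ (fun h => hw ⟨_, h⟩) _ h1 (hψ.din_up (le_max_left m n) hm)

omit hψ in
theorem cp_symm {w u : W} (hw : w ∉ Din T ψ) (hu : u ∈ Cp T ψ w) : w ∈ Cp T ψ u := by
  obtain ⟨n, hn⟩ := hu
  exact ⟨n, T.B_symm (fun h => hw ⟨n, h⟩) hn⟩

theorem Coh.cp_trans {w u v : W} (hw : w ∉ Din T ψ) (hu : u ∈ Cp T ψ w) (hv : v ∈ Cp T ψ u) :
    v ∈ Cp T ψ w := by
  have hu' := hψ.cp_not hw hu
  obtain ⟨m, hm⟩ := hu
  obtain ⟨n, hn⟩ := hv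
  have h1 := hψ.at_up (le_max_left m n) (fun h => hw ⟨_, h⟩) hm
  have h2 := hψ.at_up (le_max_right m n) (fun h => hu' ⟨_, h⟩) hn
  refine ⟨max m n, ?_⟩
  rwa [T.B_eq _ _ (fun h => hw ⟨_, h⟩) _ h1] at h2

theorem Coh.cp_eq {w u : W} (hw : w ∉ Din T ψ) (hu : u ∈ Cp T ψ w) : Cp T ψ u = Cp T ψ w :=
  Subset.antisymm (fun _ hv => hψ.cp_trans hw hu hv)
    fun _ hv => hψ.cp_trans (hψ.cp_not hw hu) (cp_symm hw hu) hv

end coh

theorem Ty.refl (ψ : ℕ → (W ≃ ℕ)) (w : W) : Ty T ψ w ψ w := fun n =>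
  ⟨1, (T.S n).one_mem, rfl⟩

theorem Ty.symm {ψ : ℕ → (W ≃ ℕ)} {w : W} {ψ' : ℕ → (W' ≃ ℕ)} {w' : W'} (h : Ty T ψ w ψ' w') :
    Ty T ψ' w' ψ w := by
  intro n
  obtain ⟨s, hs, h1⟩ := h n
  exact ⟨s⁻¹, (T.S n).inv_mem hs, by rw [h1]; exact (s.symm_apply_apply _).symm⟩

theorem Ty.trans {ψ : ℕ → (W ≃ ℕ)} {w : W} {ψ' : ℕ → (W' ≃ ℕ)} {w' : W'}
    {ψ'' : ℕ → (W'' ≃ ℕ)} {w'' : W''} (h : Ty T ψ w ψ' w') (h' : Ty T ψ' w' ψ'' w'') :
    Ty T ψ w ψ'' w'' := by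
  intro n
  obtain ⟨s, hs, h1⟩ := h n
  obtain ⟨t, ht, h2⟩ := h' n
  exact ⟨t * s, (T.S n).mul_mem ht hs, by rw [h2, h1, Equiv.Perm.mul_apply]⟩

theorem Ty.din {ψ : ℕ → (W ≃ ℕ)} {w : W} {ψ' : ℕ → (W' ≃ ℕ)} {w' : W'} (h : Ty T ψ w ψ' w') :
    w' ∈ Din T ψ' ↔ w ∈ Din T ψ := by
  constructor
  · rintro ⟨n, hn⟩
    obtain ⟨s, hs, h1⟩ := h n
    exact ⟨n, by rwa [h1, T.D_S hs] at hn⟩
  · rintro ⟨n, hn⟩
    obtain ⟨s, hs, h1⟩ := h n
    exact ⟨n, by rwa [h1, T.D_S hs]⟩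

/-- The tower itself as a coherent model. -/
theorem coh_refl : Coh T fun _ => Equiv.refl ℕ := fun n => ⟨1, (T.S n).one_mem, fun _ => rfl⟩

/-! ### systems -/

variable (T)

/-- The points of a system: a set `P₀` and countably many copies of the component of each of the
pointed models `pm i`. -/
abbrev WS {I : Type} (pm : I → PM T) (P₀ : Set ℕ) : Type :=
  P₀ ⊕ (Σ j : I × ℕ, Cp T (pm j.1).ψ (pm j.1).w)

/-- the pieces of the system -/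
def pcS {I : Type} (pm : I → PM T) (P₀ : Set ℕ) : WS T pm P₀ → Option (I × ℕ) :=
  Sum.elim (fun _ => none) fun u => some u.1

/-- the maps to `ℕ` of the system -/
def alS {I : Type} (pm : I → PM T) (P₀ : Set ℕ) (n : ℕ) : WS T pm P₀ → ℕ :=
  Sum.elim (fun v => v.1) fun u => (pm u.1.1).ψ n u.2.1

/-- The subsets `A c` of the system: if `c k` then only the copies `0, ..., k` of the component of
`γ k` are kept. -/
def AcS {I' : Type} (γ : ℕ → PM T) (q : I' → PM T) (P₀ : Set ℕ) (c : ℕ → Bool) :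
    Set (WS T (Sum.elim γ q) P₀) :=
  {w | ∀ k t, pcS T (Sum.elim γ q) P₀ w = some (Sum.inl k, t) → c k = true → t ≤ k}

/-- `P₀` contains the algebraic points, and with each point its component. -/
def Sat (P₀ : Set ℕ) : Prop :=
  (∀ n, T.D n ⊆ P₀) ∧ ∀ v ∈ P₀, (∀ n, v ∉ T.D n) → ∀ n, T.B n v ⊆ P₀

/-- `φ` is compatible with the maps `α` on the pieces. -/
def Cmp {A P : Type} (pc : A → P) (α : ℕ → A → ℕ) (φ : ℕ → (A ≃ ℕ)) : Prop :=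
  (∀ n w, α n w ∈ T.D n → φ n w = α n w) ∧
  ∀ n w, α n w ∉ T.D n → ∃ s ∈ T.S n, ∀ u, pc u = pc w → α n u ∈ T.B n (α n w) →
    φ n u = s (α n u)

end Pool.Agent.L7h66.UA
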