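import Pool.Agent.L7h66.UA.Basic
import Pool.Agent.L7h71.UN.Lift
import Pool.Agent.L7h71.UN.Fo

set_option autoImplicit false

/-!
# Project UA: statements of the parts

Theorem: an isomorphism-invariant `F_σ` class of relational structures on `ℕ` (any countable
language, no bound on the arities) satisfies the perfect set dichotomy; in particular Vaught's conjecture
for universal theories. By `Pool.Agent.L7h71.UN.lift` all finite reducts of the members may be
assumed cellular. The parts below show that a structure `x` all of whose finite reducts are cellular has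
countably many or perfectly many structures `y` such that all finite reducts of `x` and `y` are isomorphic.

Every part is a `def S_XXX : Prop`; a proof is a theorem `s_XXX (hypotheses) : S_XXX` in the file
`Pool/Agent/<folder>/UA/Xxx.lean`, namespace of your own, which imports this file.
-/

namespace Pool.Agent.L7h66.UA

open Set Function
open Pool.Agent.L7h71.UN (Closed Good Sw IsSwap Dom act CellR Cl St Cellular S_INT)
open Pool.Agent.H533R2.VO (RS RIso Dich)

/-! ### A. the tower of a sequence of groups -/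

/-- The points which lie in no good tuple. -/
def GD (G : Subgroup (Equiv.Perm ℕ)) : Set ℕ :=
  {v | ∀ (n : ℕ) (b : Fin n → ℕ), Good G b → v ∉ range b}

/-- The atom of `v`: the intersection of the ranges of the good tuples which contain `v`. -/
def GB (G : Subgroup (Equiv.Perm ℕ)) (v : ℕ) : Set ℕ :=
  {u | ∀ (n : ℕ) (b : Fin n → ℕ), Good G b → v ∈ range b → u ∈ range b}

/-- Elements of `G` with finite support which fix the points of `GD G`. -/
def FS (G : Subgroup (Equiv.Perm ℕ)) (g : Equiv.Perm ℕ) : Prop :=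
  g ∈ G ∧ {v | g v ≠ v}.Finite ∧ ∀ v ∈ GD G, g v = v

/-- Permutations which agree on each finite set with some `g` such that `FS G g`. -/
def GS (G : Subgroup (Equiv.Perm ℕ)) : Set (Equiv.Perm ℕ) :=
  {h | ∀ Z : Finset ℕ, ∃ g, FS G g ∧ ∀ z ∈ Z, g z = h z}

/-- FRA (100 lines), hypothesis `S_INT` (use it as a hypothesis; it is proved in
`Pool.Agent.L7h51.UN.Int`; `Pool.Agent.L7h51.UN.Cell0` has the lemmas `exists_atom`, `gs_inter`, `gs_sdiff`,
`atom_eq`, `good_map`). The atoms partition the complement of `GD G`.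

Proof. By INT intersections and differences of two ranges of good tuples are ranges of good tuples. Let
`v ∉ GD G` and let `b` be a good tuple with `v ∈ range b` and least length. For each good `B ∋ v` the part
of `b` in `range B` is good, hence all of `b`; so `GB G v = range b`. If `w ∈ GB G v` then `GB G w ⊆ GB G v` and
`v ∈ GB G w`, since otherwise the part of `b` outside `GB G w` is good, contains `v` and is shorter. -/
def S_FRA : Prop :=
  ∀ G : Subgroup (Equiv.Perm ℕ), Closed G →
    (∀ v, v ∉ GD G → ∃ (n : ℕ) (b : Fin n → ℕ), Good G b ∧ range b = GB G v) ∧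
    (∀ v, v ∉ GD G → ∀ w ∈ GB G v, w ∉ GD G ∧ GB G w = GB G v) ∧
    (∀ g ∈ G, ∀ v, (g v ∈ GD G ↔ v ∈ GD G) ∧ ∀ w, g w ∈ GB G (g v) ↔ w ∈ GB G v)

/-- FRB (150 lines), hypothesis `S_FRA`. Extension of finite partial maps which are allowed on each atom.

Proof. It is enough to find `g` with `FS G g` (then `g ∈ GS G`) for a set `Z` of points not in `GD G`, one point in
each atom (drop the points in `GD G`, and the second of two points in the same atom, for instance by
induction on `Z`: points `v, w` in the same atom have the same `GB`). So let `v_i` (`i ∈ I` finite) be points in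
different atoms `A_i = GB G (v_i)`, `b_i` a good tuple with range `A_i`, `f = s_i` on `A_i` with
`s_i ∈ GS G`. By the definition of `GS` we may take `s_i` with `FS G s_i`. The sets `f(A_i)` are the atoms of the
`f (v_i)`, and they are different by the last hypothesis (two atoms are equal or disjoint). Choose one after
the other tuples `c_i` with `Sw G b_i c_i` which avoid all `A_j`, all `f(A_j)`, all supports of the `s_j`,
and the earlier `c_j` (`b_i` is good). Let `g'_i ∈ G` be the exchange of `b_i` and `c_i`. Then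
`g''_i = s_i g'_i s_i⁻¹` is the exchange of `f ∘ b_i` and `c_i`, as `s_i` fixes the entries of `c_i`. All these have
finite support and fix `GD G` (points of `b_i`, `c_i`, `f ∘ b_i` are in good tuples). Then
`g = (product of the g''_i) * (product of the g'_i)` has `g ∘ b_i = f ∘ b_i` for all `i`.
(Induction on the number of atoms is also possible: given `g₀` for all atoms but one, ...) -/
def S_FRB : Prop :=
  ∀ G : Subgroup (Equiv.Perm ℕ), Closed G →
    ∀ (Z : Finset ℕ) (f : ℕ → ℕ), (∀ v ∈ Z, v ∈ GD G → f v = v) →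
    (∀ v ∈ Z, v ∉ GD G → ∃ s ∈ GS G, ∀ u ∈ GB G v, f u = s u) →
    (∀ v ∈ Z, ∀ w ∈ Z, v ∉ GD G → w ∉ GD G → f w ∈ GB G (f v) → w ∈ GB G v) →
    ∃ g, FS G g ∧ ∀ v ∈ Z, g v = f v ∧ (v ∉ GD G → ∀ u ∈ GB G v, g u = f u)

/-- `G` contains the permutations of the cells of a decomposition of `ℕ`. -/
def CellG (G : Subgroup (Equiv.Perm ℕ)) : Prop :=
  ∃ (d m : ℕ) (sz : Fin m → ℕ) (e : ℕ ≃ Dom d m sz), ∀ σ : Fin m → Equiv.Perm ℕ,
    ∃ g ∈ G, ∀ v, g v = e.symm (act σ (e v))

/-- FRC (100 lines, no hypotheses). Cellular groups have finitely many orbits.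

Proof. For a cell tuple `b = fun j => e.symm (inr ⟨i, (k, j)⟩)` and `k' ≠ k` the element of `G` for the
transposition `σ i = (k k')` exchanges `b` with the tuple of `k'`; so `b` is good, and `GD G` is contained in
the finite set of the `e.symm (inl a)`. The same elements have finite support and fix `GD G`, so all
points are moved to the finite set of the `e.symm (inl a)` and `e.symm (inr ⟨i, (0, j)⟩)`. -/
def S_FRC : Prop :=
  ∀ G : Subgroup (Equiv.Perm ℕ), CellG G →
    (GD G).Finite ∧ ∃ R : Finset ℕ, ∀ v, ∃ g, FS G g ∧ g v ∈ R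

/-- TOW (180 lines), hypotheses `S_FRA`, `S_FRB`, `S_FRC`. The tower of a sequence of cellular groups.

Proof. `T.S n` = `GS (G n)` (a subgroup), `T.D n = GD (G n)`, `T.B n v = GB (G n) v` if `v ∉ GD (G n)` and `∅`
otherwise. If `G' ≤ G` then `Good G' b` implies
`Good G b`, so `GD G ⊆ GD G'`, and `FS G' g` implies `FS G g`; this gives `D_mono`, `S_anti`. `B_mono`: for
`v ∉ GD G'` the atom `GB G' v` is the range of a `G'`-good tuple, which is `G`-good. `B_D`: let
`v ∉ GD G`, `v ∈ GD G'`, `u ∈ GB G v` and suppose `u ∉ GD G'`; then `v ∈ GB G v = GB G u ⊆ GB G' u`, the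
range of a `G'`-good tuple, a contradiction. `S_le`: `G` is closed. `S_conj`: conjugates by `g ∈ G` of
elements with `FS G` have `FS G`. `S_ext` is FRB. `S_loc`: for a finite set `Z` apply FRB to `f = h` (the atom of
`h v` is the image of the atom of `v`, because it is so for `s`), so `h ∈ GS G` by definition. `S_inf`: a good
tuple `b ∋ v` is exchanged with tuples outside any finite set by elements with `FS G`. -/
def S_TOW : Prop :=
  ∀ G : ℕ → Subgroup (Equiv.Perm ℕ), (∀ n, G (n + 1) ≤ G n) → (∀ n, Closed (G n)) →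
    (∀ n, CellG (G n)) → ∃ T : Tower, T.G = G

/-! ### B. coherent models -/

/-- KON (150 lines, no hypotheses). Isomorphisms of all levels give coherent ones.

Proof. (1) `S n` has finite index in `G n`: let `R` be the finite set of `S_orb`. To `g ∈ G n` associate the
restriction of `g` to `D n` (a map `D n → D n`) and for each `r ∈ R`, `r ∉ D n`, the restriction of `s_r * g` to
`B n r`, where `s_r ∈ S n` is chosen such that `s_r (g r) ∈ R`; it has values in the finite set `⋃ B n r'`,
`r' ∈ R`. There are finitely many such data. If `g`, `h` have the same data then `h⁻¹ * g ∈ S n` by `S_loc`: it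
fixes `D n`; for `v ∉ D n` take `t ∈ S n` with `r = t v ∈ R`; on `B n r` we have `g = s * h` for some `s ∈ S n`, and
for `u ∈ B n v`, `h⁻¹ (g u) = h⁻¹ (g (t⁻¹ (t u)))` is the value at `u` of an element of `S n` because `S n` is
normalised by `g`, `h`. (2) Let `t_n ∈ G n` with `θ n = t_n ∘ θ (n+1)`. For `N ≥ n` let
`k (N, n) = (t_n t_{n+1} ... t_{N-1})⁻¹ ∈ G n`, so that `k (N, n) = k (N, n + 1) * t_n⁻¹` for `N > n`. Fix an
ultrafilter `U` on `ℕ`, nonprincipal. By (1) there is `κ n ∈ G n` with `κ n ∈ S n * k (N, n)` for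
`U`-almost all `N`. Then `κ n ∈ S n * κ (n+1) * t_n⁻¹` (as `S (n+1) ≤ S n` and `S n` is normal in `G n`), and
`ψ n = κ n ∘ θ n` is coherent. -/
def S_KON : Prop :=
  ∀ (T : Tower) (W : Type) (θ : ℕ → (W ≃ ℕ)), (∀ n, ∃ g ∈ T.G n, ∀ w, θ n w = g (θ (n + 1) w)) →
    ∃ ψ : ℕ → (W ≃ ℕ), Coh T ψ ∧ ∀ n, ∃ g ∈ T.G n, ∀ w, ψ n w = g (θ n w)

/-- TYP (120 lines, no hypotheses). Points of the same type have isomorphic components.

Proof. Choose `s_n ∈ S n` with `ψ' n w' = s_n (ψ n w)` and `f_n = (ψ' n)⁻¹ ∘ s_n ∘ ψ n : W ≃ W'`; `f_n w = w'`.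
By coherence for `m ≤ n` the map `ψ' m ∘ f_n ∘ (ψ m)⁻¹` is in `S m`; so `f_n` maps the
atoms of level `m` to atoms of level `m`, in particular the atom of `w` to that of `w'`. Fix a nonprincipal
ultrafilter `U` on `ℕ`. If `u ∈ Cp T ψ w`, so `ψ m u ∈ B m (ψ m w)` for some `m`, then `f_n u` is for `n ≥ m` in the
finite atom of level `m` of `w'`; let `f u` be the constant value of `f_n u` for `U`-almost all `n`. As atoms are finite,
on each atom of level `m` contained in the component `f` agrees with `f_n` for `U`-almost all `n ≥ m`, which gives the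
last claim, and that `f` maps it bijectively to an atom of level `m`. -/
def S_TYP : Prop :=
  ∀ (T : Tower) (W W' : Type) (ψ : ℕ → (W ≃ ℕ)) (ψ' : ℕ → (W' ≃ ℕ)), Coh T ψ → Coh T ψ' →
    ∀ (w : W) (w' : W'), w ∉ Din T ψ → Ty T ψ w ψ' w' →
    ∃ f : W → W', f w = w' ∧ BijOn f (Cp T ψ w) (Cp T ψ' w') ∧
      ∀ n, ∀ u ∈ Cp T ψ w, ∃ s ∈ T.S n, ∀ v, ψ n v ∈ T.B n (ψ n u) → ψ' n (f v) = s (ψ n v)

/-- CEQ (60 lines), hypothesis `S_TYP`. Isomorphism of components is an equivalence relation.

Proof. Let `u ∈ Cp T ψ' w'` with `Ty T ψ w ψ' u` and `f` as in TYP for `w`, `u`; `f` maps `Cp T ψ w` onto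
`Cp T ψ' u = Cp T ψ' w'`, and `v`, `f v` have the same type for `v ∈ Cp T ψ w` (take `u = v` in the last claim of
TYP). Symmetry: take `v` with `f v = w'`. Transitivity: apply TYP to the second isomorphism. -/
def S_CEQ : Prop :=
  ∀ (T : Tower) (W W' W'' : Type) (ψ : ℕ → (W ≃ ℕ)) (ψ' : ℕ → (W' ≃ ℕ)) (ψ'' : ℕ → (W'' ≃ ℕ)),
    Coh T ψ → Coh T ψ' → Coh T ψ'' → ∀ (w : W) (w' : W') (w'' : W''), w ∉ Din T ψ →
    w' ∉ Din T ψ' → CE T ψ w ψ' w' → CE T ψ' w' ψ w ∧
      (w'' ∉ Din T ψ'' → CE T ψ' w' ψ'' w'' → CE T ψ w ψ'' w'')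

/-- GLU (80 lines, no hypotheses). Gluing.

Proof. Let `h = ψ' n ∘ f ∘ (ψ n)⁻¹`, a permutation of `ℕ`. We show `h ∈ S n` with `S_loc`. For
`v ∈ D n` the first hypothesis gives `h v = v`. Let `v ∉ D n`, `w = (ψ n)⁻¹ v`. If `w ∉ Din T ψ` use the second
hypothesis. Otherwise `ψ m w ∈ D m` for some `m > n`; then (`B_D_le` and coherence) `ψ m u ∈ D m` for all `u` with
`ψ n u ∈ B n v`; `ψ n = s ∘ ψ m`, `ψ' n = s' ∘ ψ' m` with `s, s' ∈ S n` (`Coh.le`), so
`ψ' n (f u) = s' (ψ' m (f u)) = s' (ψ m u) = (s' * s⁻¹) (ψ n u)`. -/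
def S_GLU : Prop :=
  ∀ (T : Tower) (W W' : Type) (ψ : ℕ → (W ≃ ℕ)) (ψ' : ℕ → (W' ≃ ℕ)), Coh T ψ → Coh T ψ' →
    ∀ f : W ≃ W', (∀ n w, ψ n w ∈ T.D n → ψ' n (f w) = ψ n w) →
    (∀ n w, w ∉ Din T ψ → ∃ s ∈ T.S n, ∀ v, ψ n v ∈ T.B n (ψ n w) → ψ' n (f v) = s (ψ n v)) →
    MIso T ψ ψ'

/-- CNA (180 lines), hypotheses `S_TYP`, `S_CEQ`, `S_GLU`. Models with the same multiplicities are isomorphic.

Proof. A component of `ψ` is a set `K = Cp T ψ w`, `w ∉ Din T ψ`. The components partition the complement of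
`Din T ψ`. For components `K` of `ψ`, `K'` of `ψ'` write `K ~ K'` if `CE T ψ w ψ' w'` for some (all, by CEQ) `w ∈ K`, `w' ∈ K'`.
For each class of components of pointed models the components of `ψ` and the components of `ψ'` in
this class are equinumerous, by the hypothesis `h` (both sets are countable: subsets of the countable set of components). So there is a
bijection `Θ` of the set of components of `ψ` with that of `ψ'` with `K ~ Θ K`. For each `K` choose `w ∈ K`,
`w' ∈ Θ K` of the same type and `f_K` as in TYP. Let `f` be the union of the `f_K` and of the bijection of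
`Din T ψ` with `Din T ψ'` with `ψ' n (f w) = ψ n w` if `ψ n w ∈ D n` (by `Coh.din_eq` and `Coh.din_up`
the value `ψ n w` does not depend on `n` once `ψ n w ∈ D n`). Apply GLU. -/
def S_CNA : Prop :=
  ∀ (T : Tower) (ψ ψ' : ℕ → (ℕ ≃ ℕ)), Coh T ψ → Coh T ψ' →
    (∀ q : PM T, {K : Set ℕ | ∃ w, w ∉ Din T ψ ∧ K = Cp T ψ w ∧ CE T q.ψ q.w ψ w}.encard =
      {K : Set ℕ | ∃ w, w ∉ Din T ψ' ∧ K = Cp T ψ' w ∧ CE T q.ψ q.w ψ' w}.encard) →
    MIso T ψ ψ'

/-- CNT (80 lines), hypotheses `S_CNA`, `S_CEQ`. Finitely many free classes give countably many models.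

Proof. To `ψ` associate the function `p ↦` (number in `ℕ∞` of components `K` of `ψ` with `CE p`), `p ∈ L`. There are countably many
functions from the finite set `L` to `ℕ∞`; choose one `ψ` for each function which occurs. If `ψ`, `ψ'` have the same
function then the hypothesis of CNA holds: for `q` not free both sets are infinite, for `q` free with
`CE T p.ψ p.w q.ψ q.w`, `p ∈ L`, the two sets for `q` are those for `p` by CEQ. -/
def S_CNT : Prop :=
  ∀ (T : Tower) (L : Set (PM T)), L.Finite →
    (∀ q : PM T, FreeP T q → ∃ p ∈ L, CE T p.ψ p.w q.ψ q.w) →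
    ∃ C : Set (ℕ → (ℕ ≃ ℕ)), C.Countable ∧ (∀ ψ ∈ C, Coh T ψ) ∧
      ∀ ψ : ℕ → (ℕ ≃ ℕ), Coh T ψ → ∃ ψ' ∈ C, MIso T ψ' ψ

/-- DEN (180 lines), hypotheses `S_TYP`, `S_CEQ`. Density.

Proof. Say that the point `u` of a model `ψ` has label `(n, v)` if `ψ n u = s v` for some `s ∈ S n`. Suppose that
none of the four holds. Then only finitely many `k` are such that the component of `γ k` has a point with
label `(n, v)`, and for these `k` there are finitely many such points. Let `Θ` be the finite set of all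
these pairs `(k, u)`. If `ψ` is a coherent model on `ℕ` and `w ∉ Din T ψ` has label `(n, v)` then, as the
fourth possibility fails, `w` is in a component isomorphic to that of some `γ k`, so by TYP `w` has the type of some
`u` with `(k, u) ∈ Θ`. The points of label `(n, v)` in the model `ψ = id` (`coh_refl`) are infinitely many
(`S_inf`), and only finitely many are algebraic (first possibility), so there is `θ₀ = (k, u₀) ∈ Θ`. As `Θ` is finite there
is `m ≥ n` such that each `θ = (k', u') ∈ Θ` such that `u'` and `u₀` have the same label at level `m` has the same type as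
`θ₀`. We claim that in every coherent model `ψ` on `ℕ` there are infinitely many components isomorphic to
that of `γ k`, which contradicts `FreeP`. Indeed infinitely many points `w` have the label of `u₀` at
level `m` (`S_inf`, since `u₀` is not algebraic); they have label `(n, v)`; finitely many are algebraic (on the
algebraic points there is the bijection with the algebraic points of `id`: `w ↦ ψ n w` for large `n`, see
`Coh.din_eq`, and it preserves labels); the others have the type of some element of `Θ` with the same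
label at level `m` as `u₀`, so they have the type of `θ₀`, and their components are isomorphic to that of `γ k`. Each component isomorphic to that of
`γ k` has finitely many points of label `(n, v)` (TYP). So there are infinitely many components. -/
def S_DEN : Prop :=
  ∀ (T : Tower) (γ : ℕ → PM T), (∀ k, FreeP T (γ k)) → ∀ n v, v ∉ T.D n →
    {d | (∃ m, d ∈ T.D m) ∧ ∃ s ∈ T.S n, d = s v}.Infinite ∨
    {k | ∃ u ∈ Cp T (γ k).ψ (γ k).w, ∃ s ∈ T.S n, (γ k).ψ n u = s v}.Infinite ∨
    (∃ k, {u | u ∈ Cp T (γ k).ψ (γ k).w ∧ ∃ s ∈ T.S n, (γ k).ψ n u = s v}.Infinite) ∨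
    ∃ q : PM T, (∃ s ∈ T.S n, q.ψ n q.w = s v) ∧ ∀ k, ¬ CE T (γ k).ψ (γ k).w q.ψ q.w

/-! ### C. construction of models -/

/-- BLL (200 lines, no hypotheses). Construction of a bijection at one level.

Proof. Write `D = T.D n` etc. The atom of `w ∈ W`, `α w ∉ D`, is `{u | pc u = pc w ∧ α u ∈ B (α w)}`; it is mapped
bijectively to `B (α w)` by `α` (first two hypotheses). The atoms partition `{w | α w ∉ D}`. The class of an atom
of `W` or of `ℕ` (there: a set `B v`, `v ∉ D`): the atoms `B v`, `B v'` are in the same class if `s v ∈ B v'` for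
some `s ∈ S` (an equivalence relation by `B_G`); the class of the atom of `w` is the class of `B (α w)`. In
each class there are infinitely many atoms of `ℕ` (`S_inf`, atoms are finite) and infinitely many atoms of `W` (last
hypothesis, atoms are finite), countably many. So there is a bijection between the atoms of `W` and the atoms
of `ℕ` preserving classes. For each atom of `W` choose a point `w` in it and an `s ∈ S` with `s (α w)` in the corresponding atom
of `ℕ`, and let `ψ = s ∘ α` on this atom. For `α w ∈ D` let `ψ w = α w`. -/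
def S_BLL : Prop :=
  ∀ (T : Tower) (n : ℕ) (W P : Type) [Countable W] (pc : W → P) (α : W → ℕ),
    (∀ u w, pc u = pc w → α u = α w → u = w) →
    (∀ w, α w ∉ T.D n → ∀ v ∈ T.B n (α w), ∃ u, pc u = pc w ∧ α u = v) →
    (∀ d ∈ T.D n, ∃! w, α w = d) →
    (∀ v, v ∉ T.D n → {w | ∃ s ∈ T.S n, α w = s v}.Infinite) →
    ∃ ψ : W ≃ ℕ, (∀ w, α w ∈ T.D n → ψ w = α w) ∧
      ∀ w, α w ∉ T.D n → ∃ s ∈ T.S n, ∀ u, pc u = pc w → α u ∈ T.B n (α w) → ψ u = s (α u)

/-- BLD (100 lines), hypothesis `S_BLL`. Construction of a coherent model.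

Proof. Take `ψ n` from BLL. Coherence: let `h = ψ n ∘ (ψ (n+1))⁻¹`; show `h ∈ S n` with `S_loc`. If
`d ∈ D n ⊆ D (n+1)` let `w` be the point with `α (n+1) w = d`; `α n w = s d = d` (third hypothesis, `S_D`), so
`ψ (n+1) w = d = ψ n w`. Let `v ∉ D n`, `w = (ψ (n+1))⁻¹ v`. Then `α n w ∉ D n` (otherwise
`α (n+1) w = α n w ∈ D (n+1)` and `v = ψ (n+1) w = α n w ∈ D n`). If `α (n+1) w ∉ D (n+1)` then `ψ (n+1) = s₁ ∘ α (n+1)` on
the atom of `w` of level `n+1`, which contains that of level `n`; `α n = s₂ ∘ α (n+1)` on the piece, `ψ n = s₃ ∘ α n` on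
the atom of level `n`; so `h = s₃ s₂ s₁⁻¹` on `B n v`. If `α (n+1) w ∈ D (n+1)` then `B_D` shows `α (n+1) u ∈ D (n+1)` for all
`u` in the atom of level `n`, and `ψ (n+1) u = α (n+1) u`, so `h = s₃ s₂` on `B n v`. -/
def S_BLD : Prop :=
  ∀ (T : Tower) (W P : Type) [Countable W] (pc : W → P) (α : ℕ → W → ℕ),
    (∀ n u w, pc u = pc w → α n u = α n w → u = w) →
    (∀ n w, α n w ∉ T.D n → ∀ v ∈ T.B n (α n w), ∃ u, pc u = pc w ∧ α n u = v) →
    (∀ n p, ∃ s ∈ T.S n, ∀ w, pc w = p → α n w = s (α (n + 1) w)) →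
    (∀ n, ∀ d ∈ T.D n, ∃! w, α n w = d) →
    (∀ n v, v ∉ T.D n → {w | ∃ s ∈ T.S n, α n w = s v}.Infinite) →
    ∃ φ : ℕ → (W ≃ ℕ), Coh T φ ∧ Cmp T pc α φ

/-- SYS (150 lines), hypothesis `S_BLD`. The models on the sets `A c` of a system.

Proof. Apply BLD to the subtype `AcS T γ q P₀ c`, with the restrictions of `pcS`, `alS`. First hypothesis: the
maps `(pm i).ψ n` are injective. Second: `Sat` for the piece `P₀` (if `v ∈ P₀` is in some `D m` use `B_D_le`: its atom is in
`D m ⊆ P₀`), and for the other pieces `Cp` is a union of atoms (`Coh.cp_trans`). Third: coherence of the `pm i`, and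
`s = 1` for `P₀`. Fourth: `d ∈ P₀`, and the points of the components are not algebraic (`Coh.cp_not`). Fifth: by
the hypothesis `hden` there are infinitely many points: algebraic points, which are in `P₀`; or
points in the copies `0` of the components of infinitely many `γ k`; or infinitely many points in the copy `0` of the component of
one `γ k`; or one point `u` in all the copies `t = 0, 1, 2, ...` of the component of `q i`. -/
def S_SYS : Prop :=
  ∀ (T : Tower) (I' : Type) [Countable I'] (γ : ℕ → PM T) (q : I' → PM T) (P₀ : Set ℕ), Sat T P₀ →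
    (∀ n v, v ∉ T.D n →
      {d | (∃ m, d ∈ T.D m) ∧ ∃ s ∈ T.S n, d = s v}.Infinite ∨
      {k | ∃ u ∈ Cp T (γ k).ψ (γ k).w, ∃ s ∈ T.S n, (γ k).ψ n u = s v}.Infinite ∨
      (∃ k, {u | u ∈ Cp T (γ k).ψ (γ k).w ∧ ∃ s ∈ T.S n, (γ k).ψ n u = s v}.Infinite) ∨
      ∃ i, ∃ u ∈ Cp T (q i).ψ (q i).w, ∃ s ∈ T.S n, (q i).ψ n u = s v) →
    ∀ c : ℕ → Bool, ∃ φ : ℕ → (AcS T γ q P₀ c ≃ ℕ), Coh T φ ∧
      Cmp T (fun w : AcS T γ q P₀ c => pcS T (Sum.elim γ q) P₀ w.1)
        (fun n w => alS T (Sum.elim γ q) P₀ n w.1) φ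

/-- INV (200 lines), hypotheses `S_TYP`, `S_CEQ`. The invariants of the models on `A c`.

Proof. Let `φ` be as in `Cmp` for `c`. For `w = inr ⟨j, u⟩ ∈ A c` the types of `w` in `φ` and of `u` in `(pm j.1).ψ` are the
same, `w` is not algebraic and `Cp T φ w` is the piece of `w` (the points with the same `pcS`); for `w = inl v` the types of
`w` in `φ` and of `v` in `id` are the same, and `Cp T φ w` is contained in the piece of `w`. So the components of `φ`
isomorphic to that of `γ k` are exactly the pieces `(inl k, t)` in `A c` (by `hγ`, `hq`, `hP` no others): `t ≤ k` if `c k`, all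
`t` otherwise. Let `f : A c ≃ A d` be as in `MIso`. As `G n` preserves `D n`, the atoms and normalises `S n`, `f`
preserves the algebraic points, maps components to components, and `Ty T φ w φ w'` holds iff `Ty T φ' (f w) φ' (f w')`;
so for `w ∈ A c` not algebraic the numbers of the components of `φ` isomorphic to that of `w` and of the components of
`φ'` isomorphic to that of `f w` are the same. Let `c k = true` and `w` a point of the piece `(inl k, 0)`: the number is
`k + 1`. Since the number for `f w` is finite (if `f w` is in a piece with index `inr i`, or in the piece `(inl k', t)` with `d k' = false`, it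
is infinite; if `f w` is in `P₀` then by `hP'` it is isomorphic to the component of some `q i`, infinite), `f w` is in a piece
`(inl k', t)` with `d k' = true` and `k' + 1 = k + 1`. -/
def S_INV : Prop :=
  ∀ (T : Tower) (I' : Type) [Countable I'] (γ : ℕ → PM T) (q : I' → PM T) (P₀ : Set ℕ), Sat T P₀ →
    (∀ k l, CE T (γ k).ψ (γ k).w (γ l).ψ (γ l).w → k = l) →
    (∀ k i, ¬ CE T (γ k).ψ (γ k).w (q i).ψ (q i).w) →
    (∀ v ∈ P₀, (∀ n, v ∉ T.D n) → ∃ i, CE T (q i).ψ (q i).w (fun _ => Equiv.refl ℕ) v) →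
    ∀ (c d : ℕ → Bool) (φ : ℕ → (AcS T γ q P₀ c ≃ ℕ)) (φ' : ℕ → (AcS T γ q P₀ d ≃ ℕ)),
      Coh T φ → Coh T φ' →
      Cmp T (fun w : AcS T γ q P₀ c => pcS T (Sum.elim γ q) P₀ w.1)
        (fun n w => alS T (Sum.elim γ q) P₀ n w.1) φ →
      Cmp T (fun w : AcS T γ q P₀ d => pcS T (Sum.elim γ q) P₀ w.1)
        (fun n w => alS T (Sum.elim γ q) P₀ n w.1) φ' →
      MIso T φ φ' → ∀ k, c k = true → d k = true

/-- SUB (120 lines, no hypotheses). The models on `A` and on `W` agree on finite sets.

Proof. `A ⊆ W`, and `φ`, `ψ` are models on `A`, `W` compatible with the same `α`. Let `Z' = ψ n '' Z` and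
`f : ℕ → ℕ`, `f x = φ n w` if `x = ψ n w` for some `w ∈ A`, and `f x = x` otherwise. Apply `S_ext` to `Z'`, `f`: if
`ψ n w ∈ D n`, `w ∈ A`, then `α n w ∈ D n` (otherwise `ψ n w = s (α n w) ∉ D n`), and `φ n w = α n w = ψ n w`. If `ψ n w ∉ D n`
then `α n w ∉ D n`, and on the atom `{u | pc u = pc w ∧ α n u ∈ B n (α n w)}` (all of whose points are in `A` by the hypothesis
`hA`, and which is mapped by `ψ n` onto `B n (ψ n w)` by `hs` and `ψ n u = s (α n u)`) we have `φ n = s' ∘ α n`, `ψ n = s ∘ α n`, so `f = s' * s⁻¹` on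
`B n (ψ n w)`. Different atoms are mapped to different atoms: `φ n` is injective and maps the atom of `w` onto `B n (φ n w)`. -/
def S_SUB : Prop :=
  ∀ (T : Tower) (W P : Type) (pc : W → P) (α : ℕ → W → ℕ) (A : Set W)
    (ψ : ℕ → (W ≃ ℕ)) (φ : ℕ → (A ≃ ℕ)),
    (∀ n w, α n w ∉ T.D n → ∀ v ∈ T.B n (α n w), ∃ u, pc u = pc w ∧ α n u = v) →
    (∀ w ∈ A, ∀ u, pc u = pc w → u ∈ A) →
    Cmp T pc α ψ → Cmp T (fun w : A => pc w.1) (fun n w => α n w.1) φ →
    ∀ n (Z : Finset A), ∃ s ∈ T.S n, ∀ z ∈ Z, φ n z = s (ψ n z.1)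

/-! ### D. structures -/

/-- `σ` is an isomorphism of the reducts of `x` and `y` to the relations with number less than `n`. -/
def LIso {a : ℕ → ℕ} (n : ℕ) (x y : RS a) (σ : Equiv.Perm ℕ) : Prop :=
  ∀ i, i < n → ∀ v : Fin (a i) → ℕ, y i (σ ∘ v) = x i v

/-- The automorphism group of the reduct of `x` to the relations with number less than `n`. -/
def AutR {a : ℕ → ℕ} (x : RS a) (n : ℕ) : Subgroup (Equiv.Perm ℕ) where
  carrier := {σ | LIso n x x σ}
  mul_mem' := by
    intro σ τ hσ hτ i hi v
    have : (⇑(σ * τ) ∘ v) = σ ∘ (τ ∘ v) := rfl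
    rw [this, hσ i hi, hτ i hi]
  one_mem' := fun i _ v => rfl
  inv_mem' := by
    intro σ hσ i hi v
    rw [← hσ i hi (⇑σ⁻¹ ∘ v)]
    congr 1
    funext j
    simp

/-- ENU (100 lines, no hypotheses). Continuous enumerations (see the proof of
`Pool.Agent.L7h73.UN.s_PERF`, which contains this). -/
def S_ENU : Prop :=
  ∀ (W : Type) [Countable W] (A : (ℕ → Bool) → Set W), (∀ w, IsClopen {c | w ∈ A c}) →
    (∀ c, (A c).Infinite) →
    ∃ ε : (ℕ → Bool) → ℕ → W, (∀ c, Injective (ε c)) ∧ (∀ c, range (ε c) = A c) ∧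
      ∀ k, IsLocallyConstant fun c => ε c k

/-- PPP (250 lines), hypotheses `S_CEQ`, `S_DEN`, `S_SYS`, `S_INV`, `S_SUB`, `S_ENU`. If there are infinitely many free
classes then there is a Cantor family.

Proof. At most `|F|` of the `γ k` have `CE` with a point of `F` in the model `id` (by CEQ and `hγ`), so after passing to
`k ↦ γ (k + N)` none has. Let `P₀` = union of all `T.D m` and the `B n f`, `n ∈ ℕ`, `f ∈ F` not in any `T.D m`
(the components in the model `id`); `Sat T P₀`. Let `I' = {(n, v) : the fourth possibility of DEN holds} ⊕ {f ∈ F not algebraic}`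
and `q` the chosen pointed models, resp. `(id, f)`. The hypotheses of SYS and INV hold. `W = WS`, `ψ` = the model of SYS for
`c = fun _ => false` (then `AcS` is everything; transport along this equivalence), `φ c` = the model for `c`. Define
the structure `N` on `W` by `N i z = x i (ψ (i+1) ∘ z)`. It has `N i z = x i (ψ n ∘ z)` for all `n > i` by coherence, and for `z` in `A c` also
`N i z = x i (φ c n ∘ z)` by SUB. Let `ε` be as in ENU for `A c` (`c ↦ A c` is clopen because `w ∈ A c` depends on one `c k`) and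
`g c i v = N i (ε c ∘ v)`, which is continuous in `c`. If `RIso (g c) (g d)` then `φ c`, `φ d` are `MIso` (`T.G n = AutR x n`), so
`c = d` by INV twice. Finally the copy `y` of `N` restricted to `A c` by a bijection `τ : ℕ ≃ A c` with `τ f = inl f` for `f ∈ F` is in
`Cl F x`: given finitely many relations, `i < n`, and a finite set, `y i v = x i (φ c n ∘ τ ∘ v)`; the restriction of `φ c n ∘ τ` to
`F` extends to some `s ∈ T.S n` (`S_ext` with `f ↦ φ c n (inl f)`, by `Cmp` and `alS n (inl f) = f`), and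
`e = s⁻¹ ∘ φ c n ∘ τ` fixes `F`, with `y i v = x i (e ∘ v)`. -/
def S_PPP : Prop :=
  ∀ (a : ℕ → ℕ) (x : RS a) (T : Tower), (∀ n, T.G n = AutR x n) → ∀ (F : Finset ℕ) (γ : ℕ → PM T),
    (∀ k, FreeP T (γ k)) → (∀ k l, CE T (γ k).ψ (γ k).w (γ l).ψ (γ l).w → k = l) →
    ∃ g : (ℕ → Bool) → RS a, Continuous g ∧ (∀ c, ∃ y ∈ Cl F x, RIso y (g c)) ∧
      ∀ c d, RIso (g c) (g d) → c = d

/-- REP (120 lines, no hypotheses). Countably many cellular structures in a finite language.

Proof. (See `Pool.Agent.L7h66.UN.Fin`.) For fixed `d m sz` let `e₀ : ℕ ≃ Dom d m sz`. If `x` has `CellR {i | i < n} x` with `d m sz e`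
then the copy of `x` by `e₀⁻¹ ∘ e` has it with `e₀`. Let `k` be larger than all `a i`, `i < n`. Every tuple `Fin (a i) → Dom d m sz` is
moved by some `act σ` to one all of whose points `inr ⟨_, (l, _)⟩` have `l < k`; so a structure with `CellR` for `e₀` is
determined (for `i < n`) by its values on finitely many tuples. So for each `(d, m, sz)` there are
finitely many reducts with `CellR` for `e₀`; choose one `y` for each. -/
def S_REP : Prop :=
  ∀ (a : ℕ → ℕ) (n : ℕ), ∃ R : Set (RS a), R.Countable ∧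
    ∀ x : RS a, CellR {i | i < n} x → ∃ y ∈ R, ∃ σ, LIso n y x σ

/-- CTH (180 lines), hypothesis `S_REP`. The number of the theories.

Proof. Let `R n : ℕ → RS a` enumerate the set of REP (if it is empty then `B` is empty). Let `Y` be the set of
`(x, σ, τ, k)` with `x ∈ B`, `σ, τ : ℕ → ℕ → ℕ`, `k : ℕ → ℕ`, `σ n` and `τ n` inverse to each other, `x i (σ n ∘ v) = R n (k n) i v` for all
`i < n`, and no `j < k n` such that the reducts of `R n j`, `R n (k n)` are isomorphic. It is a Borel subset of a Polish space, so standard Borel. Apply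
`Pool.Agent.H565R2.FO2.perfect_of_uncountable` with `incl (x, σ, τ, k) = x`, `J () (x, σ, τ, k) = k`, and `E` isomorphism of the `x` (then the `k` are equal
by minimality). If the set of all `k` is uncountable then there is a Cantor family in `B`. Otherwise choose for each `k` which occurs one
`x ∈ B`. (The map `Y → B` is onto.) -/
def S_CTH : Prop :=
  ∀ (a : ℕ → ℕ) (B : Set (RS a)), MeasurableSet B → (∀ x ∈ B, ∀ n, CellR {i | i < n} x) →
    (∃ g : (ℕ → Bool) → RS a, Continuous g ∧ (∀ c, g c ∈ B) ∧ ∀ c d, RIso (g c) (g d) → c = d) ∨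
    ∃ C : Set (RS a), C.Countable ∧ C ⊆ B ∧ ∀ x ∈ B, ∃ y ∈ C, ∀ n, ∃ σ, LIso n x y σ

/-- ALL (assembly, helper66): the dichotomy. -/
def S_ALL : Prop :=
  ∀ (a : ℕ → ℕ) (B : Set (RS a)), MeasurableSet B → (∀ x y, RIso x y → x ∈ B → y ∈ B) →
    (∀ x ∈ B, ∃ F : Finset ℕ, Cl F x ⊆ B) → Dich B

/-- FOU (150 lines), hypothesis `S_ALL`. First-order theories (see `Pool.Agent.L7h71.UN.Fo`, `fo_univ`).

Proof. As in `fo_univ`; to show: for `x ∈ Md he T` there is a finite `F` with `Cl F x ⊆ Md he T`. Let `F` contain the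
witnesses in `x` of the existential quantifiers of the finitely many sentences of `T` which are not universal. A
copy of `x` by a permutation over `F` satisfies the same universal formulas with parameters in
`F`, and for a universal formula the set of the `y` which satisfy it (with given parameters) is closed (quantifier-free:
clopen; quantifiers: intersection). `Nrm` is also a closed condition. -/
def S_FOU : Prop :=
  ∀ (L : FirstOrder.Language.{0, 0}) [L.IsRelational] [Countable (Σ n, L.Relations n)]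
    (T : L.Theory), {φ ∈ T | ¬ φ.IsUniversal}.Finite → (∀ φ ∈ T, Pool.Agent.L7h71.UN.IsEU φ) →
    Pool.Agent.W889.FO.Vaught L T

end Pool.Agent.L7h66.UA
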