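import Pool.Agent.L7h66.UA.Stm

set_option autoImplicit false

/-!
# Project UA, second part: structures with values in Polish spaces, all arities

General structures `XS a K ℕ`: functions `M i : ℕ^(a i) → K i`, `i ∈ ℕ`. (`RS a` is the case `K i = Bool`.)
-/

namespace Pool.Agent.L7h66.UA

open Set Function
open Pool.Agent.L7h71.UN (Closed Dom act St Cellular S_FQ S_NAM)
open Pool.Agent.H533R2.VO (RS RIso Dich)

/-- Structures on `V` with functions `M i` of `a i` arguments with values in `K i`. -/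
abbrev XS (a : ℕ → ℕ) (K : ℕ → Type) (V : Type) : Type := ∀ i, (Fin (a i) → V) → K i

variable {a : ℕ → ℕ} {K : ℕ → Type} {V W : Type}

/-- Isomorphism. -/
def XIso (M : XS a K V) (N : XS a K W) : Prop := ∃ e : V ≃ W, ∀ i (x : Fin (a i) → V), N i (e ∘ x) = M i x

/-- Every finite piece of finitely many functions of `N` embeds in `M` over `F`. -/
def XLoc (F : Finset ℕ) (M N : XS a K ℕ) : Prop :=
  ∀ (X : Finset ℕ) (n : ℕ), ∃ e : ℕ → ℕ, InjOn e X ∧ (∀ p ∈ F, e p = p) ∧ (∀ p ∈ X, e p ∈ F → p ∈ F) ∧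
    ∀ i, i < n → ∀ x : Fin (a i) → ℕ, (∀ j, x j ∈ X) → M i (e ∘ x) = N i x

/-- There is a Cantor family of pairwise non-isomorphic structures, each isomorphic to an `N` with
`XLoc F M N`. -/
def XMany (F : Finset ℕ) (M : XS a K ℕ) : Prop :=
  ∃ g : (ℕ → Bool) → XS a K ℕ, (∀ i x, IsLocallyConstant fun c => g c i x) ∧
    (∀ c, ∃ N, XLoc F M N ∧ XIso N (g c)) ∧ ∀ c d, XIso (g c) (g d) → c = d

/-- The reduct to the functions with number less than `n` is cellular. -/
def CellX (n : ℕ) (M : XS a K ℕ) : Prop :=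
  ∃ (d m : ℕ) (sz : Fin m → ℕ) (e : ℕ ≃ Dom d m sz), ∀ (σ : Fin m → Equiv.Perm ℕ),
    ∀ i, i < n → ∀ x : Fin (a i) → ℕ, M i (fun j => e.symm (act σ (e (x j)))) = M i x

/-- `σ` is an isomorphism of the reducts of `M` and `N` to the functions with number less than `n`. -/
def LIsoX (n : ℕ) (M N : XS a K ℕ) (σ : Equiv.Perm ℕ) : Prop :=
  ∀ i, i < n → ∀ x : Fin (a i) → ℕ, N i (σ ∘ x) = M i x

/-- The automorphism group of the reduct of `M` to the functions with number less than `n`. -/
def AutX (M : XS a K ℕ) (n : ℕ) : Subgroup (Equiv.Perm ℕ) where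
  carrier := {σ | LIsoX n M M σ}
  mul_mem' := by
    intro σ τ hσ hτ i hi v
    have : (⇑(σ * τ) ∘ v) = σ ∘ (τ ∘ v) := rfl
    rw [this, hσ i hi, hτ i hi]
  one_mem' := fun i _ v => rfl
  inv_mem' := by
    intro σ hσ i hi v
    rw [← hσ i hi (⇑σ⁻¹ ∘ v)]
    congr 1
    funext j
    simp

/-- PPX = PPP for `XS a K` (helper23; hypotheses as for `S_PPP`; `S_PPP` follows, but is no longer
needed). Same proof. -/
def S_PPX : Prop :=
  ∀ (a : ℕ → ℕ) (K : ℕ → Type) (M : XS a K ℕ) (T : Tower), (∀ n, T.G n = AutX M n) →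
    ∀ (F : Finset ℕ) (γ : ℕ → PM T), (∀ k, FreeP T (γ k)) →
    (∀ k l, CE T (γ k).ψ (γ k).w (γ l).ψ (γ l).w → k = l) → XMany F M

/-- PFX (120 lines, no hypotheses) = PERF0 for `XS a K`; adapt `Pool.Agent.L7h66.UN.Perf0`. (helper66) -/
def S_PFX : Prop :=
  ∀ (a : ℕ → ℕ) (K : ℕ → Type) (k : ℕ) (g : (ℕ → Bool) → XS a K ℕ) (s : (ℕ → Bool) → Fin k → ℕ),
    (∀ i x, IsLocallyConstant fun c => g c i x) →
    (∀ (c d : ℕ → Bool) (e : Equiv.Perm ℕ), (∀ i, e (s c i) = s d i) →
      (∀ i (x : Fin (a i) → ℕ), g d i (e ∘ x) = g c i x) → c = d) →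
    ∃ h : (ℕ → Bool) → (ℕ → Bool), Continuous h ∧ ∀ c d, XIso (g (h c)) (g (h d)) → c = d

/-- NX1 (180 lines), hypotheses `S_FQ`, `S_PFX`, `S_ENU`. A function with infinite range.

Proof. Name the points of `F` as in `Pool.Agent.L7h77.UN.Nam`: `Mf (M i)` on `V' = {v // v ∉ F}` with values in
`(Fin (a i) → Option F) → K i` has infinite range (each value of `M i` is obtained from a value of `Mf` and one of finitely
many patterns). FQ gives `Rigid`: named points `s` and sets `A c ⊆ V'`. Let `A' c = F ∪ A c ⊆ ℕ`, clopen in `c`. A bijection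
`A' c → A' d` which fixes `F ∪ s` and preserves all `M j` restricts to a bijection `A c → A d` as in `Rigid`, so `c = d`. Let `ε` be
the enumeration of ENU for `A'` and `g c j x = M j (ε c ∘ x)`, with named points the positions of the points of `F ∪ s`.
PFX gives `h`; the family `g ∘ h` is as required: the copy `N` of `M` restricted to `A' c` by a bijection `τ : ℕ ≃ A' c` which
fixes the points of `F` has `XLoc F M N` (take `e = τ`), and is isomorphic to `g c`. -/
def S_NX1 : Prop :=
  ∀ (a : ℕ → ℕ) (K : ℕ → Type) (M : XS a K ℕ) (F : Finset ℕ), (∃ i, (range (M i)).Infinite) →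
    XMany F M

/-- NX2 (180 lines), hypothesis `S_NAM`. Lifting from a finite reduct when all ranges are finite.

Proof. As `Pool.Agent.L7h71.UN.lift`. Let `r` be the maximum of the `a i`, `i < n`, and `ph M : St r (∀ i : Fin n, K i) ℕ` the code of the
reduct (`M i` applied to the first `a i` coordinates). It is not cellular; NAM gives `g` with `LocOver F (ph M) (g c)`. For each `c` there is
`G : XS a K ℕ` with values in the ranges of the `M i`, `XLoc F M G` and `ph G = g c`, by compactness (limit along an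
ultrafilter on the finite sets `X` of the structures `M i (e_X ∘ x)`, `e_X` from `LocOver`; the limits exist because the
ranges are finite). The set of the pairs `(c, G)` is closed in `Cantor × ∏ (range (M i))^(ℕ^(a i))` with the
discrete topology on the finite sets `range (M i)`: for each `X`, `n` the condition in `XLoc` depends on
finitely many values. Apply `Pool.Agent.H565R2.FO2.perfect_aux` with `J () (c, G) = c`. -/
def S_NX2 : Prop :=
  ∀ (a : ℕ → ℕ) (K : ℕ → Type) (M : XS a K ℕ) (F : Finset ℕ) (n : ℕ),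
    (∀ i, (range (M i)).Finite) → ¬ CellX n M → XMany F M

/-- REX (120 lines, no hypotheses) = REP for `XS a K` with values in countable sets `Q i`; adapt helper77's
proof of `S_REP`. -/
def S_REX : Prop :=
  ∀ (a : ℕ → ℕ) (K : ℕ → Type) (Q : ∀ i, Set (K i)), (∀ i, (Q i).Countable) → ∀ n,
    ∃ R : Set (XS a K ℕ), R.Countable ∧
      ∀ M : XS a K ℕ, CellX n M → (∀ i x, M i x ∈ Q i) → ∃ y ∈ R, ∃ σ, LIsoX n y M σ

/-- CTX (200 lines), hypothesis `S_REX` = CTH for `XS a K`; adapt helper29's proof of `S_CTH`.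

Proof. First step: if for some `i` the set of all values `M i x`, `M ∈ B`, is uncountable then
`Pool.Agent.H565R2.FO2.perfect_of_uncountable` with `Y = B` (a Borel subset of a Polish space), `J x M = M i x` for
`x : Fin (a i) → ℕ`, and isomorphism, gives a Cantor family in `B`. Otherwise these sets `Q i` are countable, and the proof of
CTH applies, with REX in place of REP. -/
def S_CTX : Prop :=
  ∀ (a : ℕ → ℕ) (K : ℕ → Type) [∀ i, TopologicalSpace (K i)] [∀ i, PolishSpace (K i)]
    [∀ i, MeasurableSpace (K i)] [∀ i, BorelSpace (K i)] (B : Set (XS a K ℕ)), MeasurableSet B →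
    (∀ M ∈ B, ∀ n, CellX n M) →
    (∃ g : (ℕ → Bool) → XS a K ℕ, Continuous g ∧ (∀ c, g c ∈ B) ∧ ∀ c d, XIso (g c) (g d) → c = d) ∨
    ∃ C : Set (XS a K ℕ), C.Countable ∧ C ⊆ B ∧ ∀ M ∈ B, ∃ y ∈ C, ∀ n, ∃ σ, LIsoX n M y σ

/-- ALX (assembly, helper66). The dichotomy for `XS a K`. -/
def S_ALX : Prop :=
  ∀ (a : ℕ → ℕ) (K : ℕ → Type) [∀ i, TopologicalSpace (K i)] [∀ i, PolishSpace (K i)]
    [∀ i, MeasurableSpace (K i)] [∀ i, BorelSpace (K i)] (B : Set (XS a K ℕ)), MeasurableSet B →
    (∀ M ∈ B, ∀ N, XIso M N → N ∈ B) →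
    (∀ M ∈ B, ∃ F : Finset ℕ, ∀ N, XLoc F M N → N ∈ B) →
    (∃ C : Set (XS a K ℕ), C.Countable ∧ ∀ M ∈ B, ∃ N ∈ C, XIso N M) ∨
    (∃ g : (ℕ → Bool) → XS a K ℕ, Continuous g ∧ (∀ c, g c ∈ B) ∧ ∀ c d, XIso (g c) (g d) → c = d)

/-- `N` is younger than `M` over `F`: every finite substructure of `N` (with all functions) embeds in `M`
over `F`. -/
def XYo (F : Finset ℕ) (M N : XS a K ℕ) : Prop :=
  ∀ X : Finset ℕ, ∃ e : ℕ → ℕ, InjOn e X ∧ (∀ p ∈ F, e p = p) ∧
    ∀ i (x : Fin (a i) → ℕ), (∀ j, x j ∈ X) → M i (e ∘ x) = N i x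

/-- LRC (200 lines), hypothesis `S_ALX`. The dichotomy for classes closed under younger structures over finite sets, all functions
at once.

Proof. Code `M : XS a K ℕ` by its quantifier-free types: `K' r = ∀ i, (Fin (a i) → Fin r) → K i` (Polish, a countable
product), `M' r u = fun i t => M i (u ∘ t)` for `u : Fin r → ℕ`; `M' : XS id K' ℕ`. Decoding: `dec N i x = N (a i) x i id`. Call `N` coherent if
`N r (u ∘ t) i t' = N r' u i (t ∘ t')` for all `u : Fin r' → ℕ`, `t : Fin r → Fin r'`, `t' : Fin (a i) → Fin r`. Let `B' = {N | N coherent, dec N ∈ B}`: it is Borel and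
closed under isomorphism, and `N, N' ∈ B'` are isomorphic iff `dec N`, `dec N'` are. If `N` is coherent and `XLoc F N N'` then `N'` is
coherent (each condition of coherence is about finitely many functions and a finite set of points) and
`XYo F (dec N) (dec N')`: for a finite set `X`, `XLoc` for `X` and `n = |X| + 1` gives `e` which preserves the value at an
enumeration `u` of `X` (so a code of the whole finite structure): by coherence all values of `dec N` on tuples in `X` are determined by `N |X| u`.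
So ALX applies to `B'` and gives the claim for `B`. -/
def S_LRC : Prop :=
  ∀ (a : ℕ → ℕ) (K : ℕ → Type) [∀ i, TopologicalSpace (K i)] [∀ i, PolishSpace (K i)]
    [∀ i, MeasurableSpace (K i)] [∀ i, BorelSpace (K i)] (B : Set (XS a K ℕ)), MeasurableSet B →
    (∀ M ∈ B, ∀ N, XIso M N → N ∈ B) →
    (∀ M ∈ B, ∃ F : Finset ℕ, ∀ N, XYo F M N → N ∈ B) →
    (∃ C : Set (XS a K ℕ), C.Countable ∧ ∀ M ∈ B, ∃ N ∈ C, XIso N M) ∨
    (∃ g : (ℕ → Bool) → XS a K ℕ, Continuous g ∧ (∀ c, g c ∈ B) ∧ ∀ c d, XIso (g c) (g d) → c = d)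

/-- The quantifier-free type of a tuple. -/
def qft (M : XS a K ℕ) {k : ℕ} (u : Fin k → ℕ) : ∀ i, (Fin (a i) → Fin k) → K i :=
  fun i t => M i (u ∘ t)

/-- SIG (120 lines), hypothesis `S_LRC`. The dichotomy for `Σ₂` sentences of `L_{ω₁ω}`: countable disjunctions of `∃ ū ⋀_j ∀ v̄ φ_j`
with infinitary quantifier-free `φ_j` (Borel sets `Q i j` of quantifier-free types). `B` is the class of the models. It is
Borel, closed under isomorphism, and with `F` = the entries of `u` closed under younger structures over `F`. (Equality of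
variables can be expressed as well: allow conditions also on which entries are equal; this is the set `E i j` of
tuples up to equality, here by the function `eqt`.) -/
def S_SIG : Prop :=
  ∀ (a : ℕ → ℕ) (K : ℕ → Type) [∀ i, TopologicalSpace (K i)] [∀ i, PolishSpace (K i)]
    [∀ i, MeasurableSpace (K i)] [∀ i, BorelSpace (K i)] (k : ℕ → ℕ) (l : ℕ → ℕ → ℕ)
    (Q : ∀ i j, Set ((∀ p, (Fin (a p) → Fin (k i + l i j)) → K p) ×
      (Fin (k i + l i j) → Fin (k i + l i j) → Bool))),
    (∀ i j, MeasurableSet (Q i j)) →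
    ∀ B : Set (XS a K ℕ), (∀ M, M ∈ B ↔ ∃ (i : ℕ) (u : Fin (k i) → ℕ), ∀ (j : ℕ) (v : Fin (l i j) → ℕ),
      (qft M (Fin.append u v), fun p q => decide (Fin.append u v p = Fin.append u v q)) ∈ Q i j) →
    (∃ C : Set (XS a K ℕ), C.Countable ∧ ∀ M ∈ B, ∃ N ∈ C, XIso N M) ∨
    (∃ g : (ℕ → Bool) → XS a K ℕ, Continuous g ∧ (∀ c, g c ∈ B) ∧ ∀ c d, XIso (g c) (g d) → c = d)

end Pool.Agent.L7h66.UA
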