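import Pool.Agent.L7h66.UA.StmX
import Pool.Agent.W889.FO.St0

set_option autoImplicit false

/-!
# Project UA, third part: analytic classes, constants
-/

namespace Pool.Agent.L7h66.UA

open Set Function MeasureTheory

variable {a : ℕ → ℕ} {K : ℕ → Type}

/-- Countably many isomorphism types or a Cantor family. -/
def XDich {a : ℕ → ℕ} {K : ℕ → Type} [∀ i, TopologicalSpace (K i)] (B : Set (XS a K ℕ)) : Prop :=
  (∃ C : Set (XS a K ℕ), C.Countable ∧ ∀ M ∈ B, ∃ N ∈ C, XIso N M) ∨
  (∃ g : (ℕ → Bool) → XS a K ℕ, Continuous g ∧ (∀ c, g c ∈ B) ∧ ∀ c d, XIso (g c) (g d) → c = d)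

/-- CTA (100 lines on top of helper18's `s_CTX`), hypothesis `S_REX`: CTX for analytic `B`.

Proof. `B` is empty or the range of a continuous function `f` on `ℕ → ℕ`. Use `z : ℕ → ℕ` and `f z` in place of `x ∈ B` in the space of
codes (`incl (z, ...) = f z`), in both steps. -/
def S_CTA : Prop :=
  ∀ (a : ℕ → ℕ) (K : ℕ → Type) [∀ i, TopologicalSpace (K i)] [∀ i, PolishSpace (K i)]
    [∀ i, MeasurableSpace (K i)] [∀ i, BorelSpace (K i)] (B : Set (XS a K ℕ)), AnalyticSet B →
    (∀ M ∈ B, ∀ n, CellX n M) →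
    (∃ g : (ℕ → Bool) → XS a K ℕ, Continuous g ∧ (∀ c, g c ∈ B) ∧ ∀ c d, XIso (g c) (g d) → c = d) ∨
    ∃ C : Set (XS a K ℕ), C.Countable ∧ C ⊆ B ∧ ∀ M ∈ B, ∃ y ∈ C, ∀ n, ∃ σ, LIsoX n M y σ

/-- ALA (assembly, helper66). -/
def S_ALA : Prop :=
  ∀ (a : ℕ → ℕ) (K : ℕ → Type) [∀ i, TopologicalSpace (K i)] [∀ i, PolishSpace (K i)]
    [∀ i, MeasurableSpace (K i)] [∀ i, BorelSpace (K i)] (B : Set (XS a K ℕ)), AnalyticSet B →
    (∀ M ∈ B, ∀ N, XIso M N → N ∈ B) →
    (∀ M ∈ B, ∃ F : Finset ℕ, ∀ N, XLoc F M N → N ∈ B) → XDich B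

/-- LRA (helper87's `s_LRC` for analytic `B`), hypothesis `S_ALA`. `B'` is analytic as the intersection of a Borel (closed) set and the
preimage of an analytic set under a continuous map. -/
def S_LRA : Prop :=
  ∀ (a : ℕ → ℕ) (K : ℕ → Type) [∀ i, TopologicalSpace (K i)] [∀ i, PolishSpace (K i)]
    [∀ i, MeasurableSpace (K i)] [∀ i, BorelSpace (K i)] (B : Set (XS a K ℕ)), AnalyticSet B →
    (∀ M ∈ B, ∀ N, XIso M N → N ∈ B) →
    (∀ M ∈ B, ∃ F : Finset ℕ, ∀ N, XYo F M N → N ∈ B) → XDich B

/-- AGE (80 lines), hypothesis `S_LRA`. The structures younger than a member of an analytic class.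

Proof. The class is analytic (projection of `{(M, N) | M ∈ 𝒦 ∧ XYo ∅ M N}`, where `XYo ∅` is Borel: for each finite `X` countably many
injections of `X`), closed under isomorphism and (transitivity) under younger structures. -/
def S_AGE : Prop :=
  ∀ (a : ℕ → ℕ) (K : ℕ → Type) [∀ i, TopologicalSpace (K i)] [∀ i, PolishSpace (K i)]
    [∀ i, MeasurableSpace (K i)] [∀ i, BorelSpace (K i)] (𝒦 : Set (XS a K ℕ)), AnalyticSet 𝒦 →
    XDich {N | ∃ M ∈ 𝒦, XYo ∅ M N}

/-! ### constants -/

/-- Structures with a sequence of constants. -/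
abbrev XC (a : ℕ → ℕ) (K : ℕ → Type) : Type := XS a K ℕ × (ℕ → ℕ)

/-- Isomorphism. -/
def CIso (x y : XC a K) : Prop :=
  ∃ σ : Equiv.Perm ℕ, (∀ i (v : Fin (a i) → ℕ), y.1 i (σ ∘ v) = x.1 i v) ∧ ∀ k, y.2 k = σ (x.2 k)

/-- Every substructure of `y` generated by finitely many points (and the constants) embeds in `x` over `F`. -/
def CYo (F : Finset ℕ) (x y : XC a K) : Prop :=
  ∀ X : Finset ℕ, ∃ e : ℕ → ℕ, InjOn e ((X : Set ℕ) ∪ range y.2) ∧ (∀ p ∈ F, e p = p) ∧
    (∀ k, e (y.2 k) = x.2 k) ∧
    ∀ i (v : Fin (a i) → ℕ), (∀ j, v j ∈ (X : Set ℕ) ∪ range y.2) → x.1 i (e ∘ v) = y.1 i v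

/-- Countably many isomorphism types or a Cantor family. -/
def CDich {a : ℕ → ℕ} {K : ℕ → Type} [∀ i, TopologicalSpace (K i)] (B : Set (XC a K)) : Prop :=
  (∃ C : Set (XC a K), C.Countable ∧ ∀ x ∈ B, ∃ y ∈ C, CIso y x) ∨
  (∃ g : (ℕ → Bool) → XC a K, Continuous g ∧ (∀ c, g c ∈ B) ∧ ∀ c d, CIso (g c) (g d) → c = d)

/-- CNK (150 lines, no hypotheses). All but `k` points are constants (no closure condition).

Proof. `Y = {(x, u) | x ∈ B, u : Fin k → ℕ injective with range the complement of the constants}`, a Borel subset of a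
Polish space. For a permutation `π` of `Fin k` let `J π (x, u)` be the quantifier-free type of the sequence `(u ∘ π, x.2)`: the values
`x.1 i (s ∘ t)`, `t : Fin (a i) → Fin k ⊕ ℕ`, and the equalities between the entries, `s = Sum.elim (u ∘ π) x.2 : Fin k ⊕ ℕ → ℕ`. Equal
quantifier-free types give isomorphic structures, because `s` is onto; isomorphic `x`, `x'` give `J π (x, u) = J π' (x', u')`. Apply
`Pool.Agent.H565R2.FO2.perfect_of_uncountable`. -/
def S_CNK : Prop :=
  ∀ (a : ℕ → ℕ) (K : ℕ → Type) [∀ i, TopologicalSpace (K i)] [∀ i, PolishSpace (K i)]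
    [∀ i, MeasurableSpace (K i)] [∀ i, BorelSpace (K i)] (k : ℕ) (B : Set (XC a K)), MeasurableSet B →
    (∀ x ∈ B, ∀ y, CIso x y → y ∈ B) → (∀ x ∈ B, (range x.2)ᶜ.Finite ∧ (range x.2)ᶜ.ncard = k) → CDich B

/-- CNI (250 lines), hypothesis `S_LRA`. Infinitely many points are not constants.

Proof. Let `K' r = (∀ i, (Fin (a i) → Fin r ⊕ ℕ) → K i) × (ℕ → ℕ → Bool)` (Polish). For `x ∈ B` and an injection `ε : ℕ → ℕ` with range the
complement of the constants let `H (x, ε) : XS id K' ℕ`, `H (x, ε) r u = ((fun i t => x.1 i (Sum.elim (ε ∘ u) x.2 ∘ t)), equalities of the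
constants)`. Let `B' = {H (x, ε)}`: an analytic set (image of a Borel set under a Borel map, closed under isomorphism
(change `ε`)). (1) If `H (x, ε)`, `H (x', ε')` are isomorphic then `x`, `x'` are (extend the bijection of the
complements by the map of the constants), and conversely. (2) `B'` is closed under `XYo F'`: let `F` be as in the hypothesis for `x`, let `F'` be the set
of the `n` with `ε n ∈ F`, and `XYo F' (H (x, ε)) N'`. Define `y` on the set `ℕ ⊕ range x.2` (countably infinite, choose a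
bijection `τ` with `ℕ` which maps `inl n` to `ε n` if `n ∈ F'` and `inr p` to `p` if `p ∈ F`): constants as in `x`, the value at a tuple `v` is the
value of `N'` at a tuple `u` of points with `v = Sum.elim u x.2 ∘ t` (well defined, because it is so in `H (x, ε)`; each value of `N'` at a tuple is
a value of `H (x, ε)`). Then `CYo F x y` and `N' = H (y, τ ∘ inl)`. (3) LRA for `B'` gives countably many types or a Cantor family
`g'` in `B'`; in the first case use (1), in the second case use `perfect_of_uncountable` with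
`Y = {(z, x, ε) | H (x, ε) = g' z}`, `J = z`, `E` = isomorphism of the `x`, to get a continuous family in `B`. -/
def S_CNI : Prop :=
  ∀ (a : ℕ → ℕ) (K : ℕ → Type) [∀ i, TopologicalSpace (K i)] [∀ i, PolishSpace (K i)]
    [∀ i, MeasurableSpace (K i)] [∀ i, BorelSpace (K i)] (B : Set (XC a K)), MeasurableSet B →
    (∀ x ∈ B, ∀ y, CIso x y → y ∈ B) → (∀ x ∈ B, (range x.2)ᶜ.Infinite) →
    (∀ x ∈ B, ∃ F : Finset ℕ, ∀ y, CYo F x y → (range y.2)ᶜ.Infinite → y ∈ B) → CDich B

/-- CON (80 lines), hypotheses `S_CNK`, `S_CNI`. The dichotomy with constants: the union of the classes with `k` points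
which are not constants, and of the class with infinitely many. -/
def S_CON : Prop :=
  ∀ (a : ℕ → ℕ) (K : ℕ → Type) [∀ i, TopologicalSpace (K i)] [∀ i, PolishSpace (K i)]
    [∀ i, MeasurableSpace (K i)] [∀ i, BorelSpace (K i)] (B : Set (XC a K)), MeasurableSet B →
    (∀ x ∈ B, ∀ y, CIso x y → y ∈ B) →
    (∀ x ∈ B, ∃ F : Finset ℕ, ∀ y, CYo F x y → y ∈ B) → CDich B

/-- FOC (300 lines), hypothesis `S_CON`. First-order theories in countable languages without function symbols of positive
arity.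

Proof. If there are no constants use `S_FOU`/`fou` (or repeat the proof); otherwise enumerate the constants (with repetitions) and code an
`L`-structure on `ℕ` by an element of `XC a (fun _ => Bool)` as in `Pool.Agent.R617.VT.Trans` (`cd`, `dc`). The class of the codes of the models of `T`
is Borel and invariant. If `x` codes a model of `T`, let `F` contain the witnesses of the existential quantifiers of the finitely many
sentences which are not universal; if `CYo F x y` then `y` codes a model of `T`: the embeddings `e` preserve and reflect atomic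
formulas on tuples of points of `X` and constants. The family must also be continuous for the constants (`VaughtF`). -/
def S_FOC : Prop :=
  ∀ (L : FirstOrder.Language.{0, 0}) [Countable (Σ n, L.Relations n)] [Countable (Σ n, L.Functions n)],
    (∀ n, IsEmpty (L.Functions (n + 1))) → ∀ T : L.Theory, {φ ∈ T | ¬ φ.IsUniversal}.Finite →
    (∀ φ ∈ T, Pool.Agent.L7h71.UN.IsEU φ) → Pool.Agent.W889.FO.VaughtF L T

end Pool.Agent.L7h66.UA
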